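import Pool.Agent.H714Z.Sym.Rest

set_option autoImplicit false

/-!
# Extraction of disjointly supported blocks
-/

namespace Pool.Agent.H714Z.Sym

open Finset

theorem indep {α : Type*} [Fintype α] [DecidableEq α] (R : α → α → Prop) [DecidableRel R] (Δ : ℕ)
    (hR : ∀ i, (univ.filter (R i)).card ≤ Δ) : ∀ (m : ℕ) (S : Finset α),
    m * (2 * Δ + 1) ≤ S.card → ∃ J ⊆ S, J.card = m ∧ ∀ i ∈ J, ∀ j ∈ J, i ≠ j → ¬ R i j
  | 0, S, _ => ⟨∅, by simp, rfl, by simp⟩
  | m + 1, S, h => by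
    have hS : S.Nonempty := Finset.card_pos.1 (by nlinarith)
    have h1 : ∑ j ∈ S, (S.filter (fun i => R i j)).card ≤ ∑ _j ∈ S, Δ := by
      have e0 : ∑ j ∈ S, (S.filter (fun i => R i j)).card = ∑ i ∈ S, (S.filter (R i)).card := by
        simp only [Finset.card_filter]
        exact Finset.sum_comm
      rw [e0]
      refine Finset.sum_le_sum fun i _ => le_trans (Finset.card_le_card ?_) (hR i)
      exact Finset.filter_subset_filter _ (Finset.subset_univ _)
    obtain ⟨j, hj, h2⟩ := Finset.exists_le_of_sum_le hS h1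
    set T := insert j (S.filter (fun i => R i j) ∪ univ.filter (R j)) with hT
    have h3 : T.card ≤ 2 * Δ + 1 := by
      have e1 := Finset.card_insert_le j (S.filter (fun i => R i j) ∪ univ.filter (R j))
      have e2 := Finset.card_union_le (S.filter (fun i => R i j)) (univ.filter (R j))
      have e3 := hR j
      rw [hT]
      omega
    have h4 := Finset.le_card_sdiff T S
    obtain ⟨J, hJ, hc, hi⟩ := indep R Δ hR m (S \ T) (by
      have : (m + 1) * (2 * Δ + 1) = m * (2 * Δ + 1) + (2 * Δ + 1) := by ring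
      omega)
    have h5 : ∀ i ∈ J, i ∈ S ∧ i ≠ j ∧ ¬ R i j ∧ ¬ R j i := by
      intro i hi
      have := Finset.mem_sdiff.1 (hJ hi)
      simp only [hT, Finset.mem_insert, Finset.mem_union, Finset.mem_filter, Finset.mem_univ,
        true_and, not_or, not_and] at this
      exact ⟨this.1, this.2.1, this.2.2.1 this.1, this.2.2.2⟩
    refine ⟨insert j J, ?_, ?_, ?_⟩
    · intro i hi
      rcases Finset.mem_insert.1 hi with rfl | hi
      exacts [hj, (h5 i hi).1]
    · rw [Finset.card_insert_of_notMem (fun hh => (h5 j hh).2.1 rfl), hc]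
    · intro a ha b hb hab
      rcases Finset.mem_insert.1 ha with rfl | ha' <;> rcases Finset.mem_insert.1 hb with rfl | hb'
      · exact absurd rfl hab
      · exact (h5 b hb').2.2.2
      · exact (h5 a ha').2.2.1
      · exact hi a ha' b hb' hab

theorem large_count {k : ℕ} (x : Fin k → ℝ) {q : ℝ} (hq : 0 < q) :
    ∑ i, (if x i ^ 2 ≤ (∑ j, x j ^ 2) / q ^ 2 then (0 : ℝ) else 1) ≤ q ^ 2 := by
  set S := ∑ j, x j ^ 2 with hS
  have h0 : 0 ≤ S := Finset.sum_nonneg fun i _ => sq_nonneg _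
  rcases h0.eq_or_lt with h | h
  · refine le_trans (le_of_eq (Finset.sum_eq_zero fun i _ => if_pos ?_)) (by positivity)
    have := Finset.single_le_sum (f := fun j => x j ^ 2) (fun j _ => sq_nonneg _)
      (Finset.mem_univ i)
    rw [← h, zero_div]
    linarith
  · have h1 : ∀ i, (if x i ^ 2 ≤ S / q ^ 2 then (0 : ℝ) else 1) ≤ x i ^ 2 * (q ^ 2 / S) := by
      intro i
      split_ifs with hi
      · positivity
      · rw [not_le, div_lt_iff₀ (by positivity)] at hi
        rw [← mul_div_assoc, le_div_iff₀ h]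
        linarith
    refine (Finset.sum_le_sum fun i _ => h1 i).trans (le_of_eq ?_)
    rw [← Finset.sum_mul, ← hS]
    field_simp

variable {d B N k : ℕ} {C : ℝ} {v f : Fin k → Fin N → ℝ × ℝ}

theorem Sys.blocks {Q : ℕ} (hQ : 0 < Q) (hp : 1 ≤ 2 * Q ^ 2) (h : Sys (nu hp d B N) C v f)
    (hC : 0 ≤ C) (hk : 0 < k) (hQC : 480 * C * 2 ^ d ≤ Q) {m Δ : ℕ} (hm : 0 < m)
    (hΔ : 16 * m * ((Q ^ 2 : ℕ) : ℝ) ^ 2 * (10 * C * 2 ^ d) ≤ Δ)
    (hk' : 4 * (10 * C * 2 ^ d) * (m * (2 * Δ + 1) : ℕ) ≤ k) :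
    ∃ J : Finset (Fin k), J.card = m ∧ ∃ A : Fin k → Finset (Fin N),
      (∀ i j ω, ω ∈ A i → ω ∈ A j → i = j) ∧
      ∀ i ∈ J, 1 / 8 ≤ ∑ ω ∈ A i, pr (f i ω) (v i ω) := by
  classical
  set K := 10 * C * 2 ^ d with hK
  set q : ℝ := ((Q ^ 2 : ℕ) : ℝ) with hq
  have hq0 : 0 < q := by positivity
  have hm' : (0 : ℝ) < m := by exact_mod_cast hm
  have hτ : ∀ i, ∑ ω, tau (f i ω) (v i ω) ≤ K := h.tau_le hp hC
  have hK1 : 1 ≤ K := by
    refine le_trans ?_ (hτ ⟨0, hk⟩)
    rw [← h.one ⟨0, hk⟩]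
    exact Finset.sum_le_sum fun ω _ => (le_abs_self _).trans (abs_pr_le_tau _ _)
  set I : Fin N → Fin k → Prop := fun ω i => (v i ω).1 ^ 2 ≤ (∑ j, (v j ω).1 ^ 2) / q ^ 2 ∧
    (v i ω).2 ^ 2 ≤ (∑ j, (v j ω).2 ^ 2) / q ^ 2 with hI
  have r1 := h.rest hQ hp hC hk hQC (LinearMap.fst ℝ ℝ ℝ) (fun t => (t, 0))
    (fun z t => by simp [pr]) (fun t => by simp [norm_eq_max]) abs_fst_le I (fun ω i hi => hi.1)
  have r2 := h.rest hQ hp hC hk hQC (LinearMap.snd ℝ ℝ ℝ) (fun t => (0, t))
    (fun z t => by simp [pr]) (fun t => by simp [norm_eq_max]) abs_snd_le I (fun ω i hi => hi.2)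
  simp only [LinearMap.fst_apply, LinearMap.snd_apply] at r1 r2
  have hcount : ∀ ω, ∑ i, (if I ω i then (0 : ℝ) else 1) ≤ 2 * q ^ 2 := by
    intro ω
    have e1 := large_count (fun i => (v i ω).1) hq0
    have e2 := large_count (fun i => (v i ω).2) hq0
    refine le_trans ?_ ((add_le_add e1 e2).trans (le_of_eq (by ring)))
    rw [← Finset.sum_add_distrib]
    refine Finset.sum_le_sum fun i _ => ?_
    by_cases h1 : (v i ω).1 ^ 2 ≤ (∑ j, (v j ω).1 ^ 2) / q ^ 2 <;>
      by_cases h2 : (v i ω).2 ^ 2 ≤ (∑ j, (v j ω).2 ^ 2) / q ^ 2 <;>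
      simp only [hI, h1, h2, and_self, and_true, and_false, if_true, if_false] <;> norm_num
  set c : Fin k → ℝ := fun i => ∑ ω, if I ω i then 0 else pr (f i ω) (v i ω) with hc
  have hc1 : (k : ℝ) / 2 ≤ ∑ i, c i := by
    have e1 : ∑ i, c i + (∑ ω, ∑ i, (if I ω i then (f i ω).1 * (v i ω).1 else 0) +
        ∑ ω, ∑ i, (if I ω i then (f i ω).2 * (v i ω).2 else 0)) = ∑ i, dot (f i) (v i) := by
      rw [Finset.sum_comm (s := univ) (t := (univ : Finset (Fin k))),
        Finset.sum_comm (s := univ) (t := (univ : Finset (Fin k))), ← Finset.sum_add_distrib,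
        ← Finset.sum_add_distrib]
      refine Finset.sum_congr rfl fun i _ => ?_
      simp only [hc, dot]
      rw [← Finset.sum_add_distrib, ← Finset.sum_add_distrib]
      refine Finset.sum_congr rfl fun ω _ => ?_
      split_ifs <;> simp [pr]
    simp only [h.one, Finset.sum_const, Finset.card_univ, Fintype.card_fin, nsmul_eq_mul,
      mul_one] at e1
    linarith
  have hc2 : ∀ i, c i ≤ K := by
    intro i
    refine le_trans (Finset.sum_le_sum fun ω _ => ?_) (hτ i)
    split_ifs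
    · exact tau_nonneg _ _
    · exact (le_abs_self _).trans (abs_pr_le_tau _ _)
  set G := univ.filter (fun i => 1 / 4 ≤ c i) with hG
  have hG1 : m * (2 * Δ + 1) ≤ G.card := by
    have e1 : ∑ i, c i ≤ ∑ i, ((if 1 / 4 ≤ c i then (1 : ℝ) else 0) * K + 1 / 4) := by
      refine Finset.sum_le_sum fun i _ => ?_
      have := hc2 i
      split_ifs <;> linarith
    rw [Finset.sum_add_distrib, ← Finset.sum_mul, Finset.sum_boole] at e1
    simp only [Finset.sum_const, Finset.card_univ, Fintype.card_fin, nsmul_eq_mul] at e1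
    have e2 : K * (m * (2 * Δ + 1) : ℕ) ≤ K * (G.card : ℝ) := by linarith
    exact_mod_cast le_of_mul_le_mul_left e2 (by linarith)
  set W : Fin k → Fin k → ℝ := fun i j =>
    ∑ ω, if ¬ I ω i ∧ ¬ I ω j then tau (f i ω) (v i ω) else 0 with hW
  have hW0 : ∀ i j, 0 ≤ W i j := fun i j => Finset.sum_nonneg fun ω _ => by
    split_ifs
    · exact tau_nonneg _ _
    · rfl
  have hW1 : ∀ i, (univ.filter (fun j => 1 / (8 * (m : ℝ)) < W i j)).card ≤ Δ := by
    intro i
    have e1 : ∑ j, W i j ≤ 2 * q ^ 2 * K := by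
      simp only [hW]
      rw [Finset.sum_comm]
      refine le_trans (Finset.sum_le_sum fun ω _ => ?_)
        ((Finset.mul_sum _ _ _).ge.trans (mul_le_mul_of_nonneg_left (hτ i) (by positivity)))
      refine le_trans ?_ (mul_le_mul_of_nonneg_right (hcount ω) (tau_nonneg _ _))
      rw [Finset.sum_mul]
      refine Finset.sum_le_sum fun j _ => ?_
      have := tau_nonneg (f i ω) (v i ω)
      by_cases h1 : I ω i <;> by_cases h2 : I ω j <;> simp [h1, h2, this]
    have e2 : ∑ j, (if 1 / (8 * (m : ℝ)) < W i j then (1 : ℝ) else 0) ≤ ∑ j, 8 * m * W i j := by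
      refine Finset.sum_le_sum fun j _ => ?_
      have := hW0 i j
      split_ifs with hj
      · rw [div_lt_iff₀ (by positivity)] at hj
        linarith
      · positivity
    rw [Finset.sum_boole, ← Finset.mul_sum] at e2
    have e3 : 8 * (m : ℝ) * ∑ j, W i j ≤ 8 * m * (2 * q ^ 2 * K) := by gcongr
    have e4 : ((univ.filter (fun j => 1 / (8 * (m : ℝ)) < W i j)).card : ℝ) ≤ Δ := by linarith
    exact_mod_cast e4
  obtain ⟨J, hJ, hJc, hJi⟩ := indep (fun i j => 1 / (8 * (m : ℝ)) < W i j) Δ hW1 m G hG1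
  refine ⟨J, hJc, fun i => univ.filter (fun ω => i ∈ J ∧ ¬ I ω i ∧ ∀ j ∈ J, j ≠ i → I ω j),
    fun i j ω hi hj => ?_, fun i hi => ?_⟩
  · by_contra hij
    exact (Finset.mem_filter.1 hi).2.2.1
      ((Finset.mem_filter.1 hj).2.2.2 i (Finset.mem_filter.1 hi).2.1 hij)
  · have e1 : 1 / 4 ≤ c i := (Finset.mem_filter.1 (hJ hi)).2
    have e2 : ∑ j ∈ J.erase i, W i j ≤ 1 / 8 := by
      have e3 : ∑ j ∈ J.erase i, W i j ≤ ∑ _j ∈ J.erase i, 1 / (8 * (m : ℝ)) :=
        Finset.sum_le_sum fun j hj => not_lt.1 (hJi i hi j (Finset.mem_of_mem_erase hj)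
          (Finset.ne_of_mem_erase hj).symm)
      refine e3.trans ?_
      rw [Finset.sum_const, nsmul_eq_mul]
      have e4 : ((J.erase i).card : ℝ) ≤ m := by
        exact_mod_cast hJc ▸ Finset.card_erase_le
      calc ((J.erase i).card : ℝ) * (1 / (8 * (m : ℝ))) ≤ m * (1 / (8 * (m : ℝ))) := by gcongr
        _ = 1 / 8 := by field_simp
    have e5 : c i - ∑ j ∈ J.erase i, W i j ≤ ∑ ω ∈ univ.filter
        (fun ω => i ∈ J ∧ ¬ I ω i ∧ ∀ j ∈ J, j ≠ i → I ω j), pr (f i ω) (v i ω) := by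
      simp only [hc, hW]
      rw [Finset.sum_comm, ← Finset.sum_sub_distrib, Finset.sum_filter]
      refine Finset.sum_le_sum fun ω _ => ?_
      have t0 : ∀ j, 0 ≤ if ¬ I ω i ∧ ¬ I ω j then tau (f i ω) (v i ω) else 0 := fun j => by
        split_ifs
        · exact tau_nonneg _ _
        · rfl
      have t1 := Finset.sum_nonneg (s := J.erase i) fun j _ => t0 j
      by_cases h1 : I ω i
      · rw [if_pos h1, if_neg (fun hh => hh.2.1 h1)]
        linarith
      · rw [if_neg h1]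
        split_ifs with h2
        · linarith
        · have h3 : ∃ j ∈ J, j ≠ i ∧ ¬ I ω j := by
            by_contra h4
            refine h2 ⟨hi, h1, fun j hj hji => ?_⟩
            by_contra h5
            exact h4 ⟨j, hj, hji, h5⟩
          obtain ⟨j, hj, hji, h4⟩ := h3
          have t2 := Finset.single_le_sum (s := J.erase i) (fun j _ => t0 j)
            (Finset.mem_erase.2 ⟨hji, hj⟩)
          rw [if_pos ⟨h1, h4⟩] at t2
          have t3 := (le_abs_self _).trans (abs_pr_le_tau (f i ω) (v i ω))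
          linarith
    linarith

end Pool.Agent.H714Z.Sym
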