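import Pool.Agent.H714Z.Sym.Rest

set_option autoImplicit false

/-!
# A scale at which a block is expanded
-/

namespace Pool.Agent.H714Z.Sym

open Finset

theorem abs_pr_le (f z : ℝ × ℝ) : |pr f z| ≤ 2 * (‖f‖ * ‖z‖) := by
  refine (abs_add_le _ _).trans ?_
  rw [abs_mul, abs_mul]
  have h1 := mul_le_mul (abs_fst_le f) (abs_fst_le z) (abs_nonneg _) (norm_nonneg _)
  have h2 := mul_le_mul (abs_snd_le f) (abs_snd_le z) (abs_nonneg _) (norm_nonneg _)
  linarith

theorem pr_smul (f z : ℝ × ℝ) (m : ℝ) : pr f (m • z) = m * pr f z := by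
  simp only [pr, Prod.smul_fst, Prod.smul_snd, smul_eq_mul]; ring

theorem dot_smul {N : ℕ} (f z : Fin N → ℝ × ℝ) (m : ℝ) : dot f (m • z) = m * dot f z := by
  simp only [dot, Pi.smul_apply, pr_smul, Finset.mul_sum]

theorem local_scale {p γ N : ℕ} (hp : γ + 12 + 3 ≤ p) (W Ψ : Fin N → ℝ × ℝ) (A : Finset (Fin N))
    (h : 1 / 8 ≤ ∑ ω ∈ A, pr (Ψ ω) (W ω)) :
    ∃ u ∈ Finset.Icc 1 (3 * (5 * (γ + 12 + 2))), ∃ z : Fin N → ℝ × ℝ, (∀ ω, ω ∉ A → z ω = 0) ∧
      rho p (γ + 12) (5 * (γ + 12 + 2)) z ≤ 2 * ((2 : ℝ) ^ (-(u : ℤ))) ^ p ∧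
      (2 * (2 : ℝ) ^ (-(u : ℤ))) ^ p / 10 ≤
        ∑ ω ∈ A, Phi p (γ + 12) (5 * (γ + 12 + 2)) ((dot Ψ z / 2 ^ γ) • W ω) := by
  classical
  set d := γ + 12 with hd
  set w := d + 2 with hw
  set B := 5 * w with hB
  have hp1 : 1 ≤ p := by omega
  have hB0 : 0 < B := by omega
  set M := ∑ ω ∈ A, ‖Ψ ω‖ * ‖W ω‖ with hM
  have hM1 : 1 / 16 ≤ M := by
    have e1 : ∑ ω ∈ A, pr (Ψ ω) (W ω) ≤ ∑ ω ∈ A, 2 * (‖Ψ ω‖ * ‖W ω‖) :=
      Finset.sum_le_sum fun ω _ => (le_abs_self _).trans (abs_pr_le _ _)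
    rw [← Finset.mul_sum] at e1
    linarith
  have hM0 : 0 < M := by linarith
  have hS : 0 < ∑ ω ∈ A, ‖W ω‖ ^ p := by
    refine lt_of_le_of_ne (Finset.sum_nonneg fun ω _ => by positivity) fun h0 => ?_
    have e1 := (Finset.sum_eq_zero_iff_of_nonneg (fun ω _ => by positivity)).1 h0.symm
    have e2 : M = 0 := Finset.sum_eq_zero fun ω hω => by
      rw [pow_eq_zero_iff (by omega : p ≠ 0) |>.1 (e1 ω hω), mul_zero]
    linarith
  obtain ⟨n, hn0, hn⟩ : ∃ n : ℝ, 0 < n ∧ n ^ p = ∑ ω ∈ A, ‖W ω‖ ^ p :=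
    ⟨_, Real.rpow_pos_of_pos hS _, Real.rpow_inv_natCast_pow hS.le (by omega)⟩
  set r : Fin N → ℝ := fun ω => ‖W ω‖ / n with hr
  have hr0 : ∀ ω, 0 ≤ r ω := fun ω => by positivity
  have hr1 : ∑ ω ∈ A, r ω ^ p = 1 := by
    simp only [hr, div_pow]
    rw [← Finset.sum_div, ← hn, div_self (by positivity)]
  set e : Fin N → ℤ := fun ω => Int.log 2 (r ω) with he
  have he1 : ∀ ω, 0 < r ω → (2 : ℝ) ^ e ω ≤ r ω := fun ω h0 => by
    simpa using Int.zpow_log_le_self (b := 2) (by norm_num) h0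
  have he2 : ∀ ω, r ω < (2 : ℝ) ^ (e ω + 1) := fun ω => by
    simpa using Int.lt_zpow_succ_log_self (b := 2) (by norm_num) (r ω)
  choose c₀ hc₀ using fun ω => dir_in (Ψ ω)
  choose c₁ hc₁ using fun ω => dir_out (W ω)
  set X : ℕ → ℝ := fun u =>
    ∑ ω ∈ A, ‖Ψ ω‖ * ‖W ω‖ * (if GoodIn B w (c₀ ω) (e ω - u) then 0 else 1) with hX
  set Y : ℕ → ℝ := fun u =>
    ∑ ω ∈ A, r ω ^ p * (if cls B (e ω + 2 - u) = c₁ ω then 1 else 0) with hY
  have hX0 : ∀ u, 0 ≤ X u := fun u => Finset.sum_nonneg fun ω _ => by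
    split_ifs <;> positivity
  have hY0 : ∀ u, 0 ≤ Y u := fun u => Finset.sum_nonneg fun ω _ => by
    have := hr0 ω
    split_ifs <;> positivity
  have hX1 : ∑ u ∈ Finset.Icc 1 (3 * B), X u ≤ M * (B + 3 * w) := by
    simp only [hX]
    rw [Finset.sum_comm, hM, Finset.sum_mul]
    refine Finset.sum_le_sum fun ω _ => ?_
    rw [← Finset.mul_sum]
    exact mul_le_mul_of_nonneg_left (in_count hB0 w (e ω) (c₀ ω)) (by positivity)
  have hY1 : ∑ u ∈ Finset.Icc 1 (3 * B), Y u ≤ B := by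
    simp only [hY]
    rw [Finset.sum_comm]
    refine le_trans ?_ (le_of_eq (by rw [hr1, one_mul] : (∑ ω ∈ A, r ω ^ p) * (B : ℝ) = B))
    rw [Finset.sum_mul]
    refine Finset.sum_le_sum fun ω _ => ?_
    rw [← Finset.mul_sum]
    have := hr0 ω
    exact mul_le_mul_of_nonneg_left (out_count hB0 (e ω + 2) (c₁ ω)) (by positivity)
  obtain ⟨u, hu, hXY⟩ : ∃ u ∈ Finset.Icc 1 (3 * B), X u / M + Y u ≤ 9 / 10 := by
    refine Finset.exists_le_of_sum_le ⟨1, Finset.mem_Icc.2 ⟨le_rfl, by omega⟩⟩ ?_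
    rw [Finset.sum_add_distrib, ← Finset.sum_div, Finset.sum_const, Nat.card_Icc, nsmul_eq_mul]
    have e1 : (∑ u ∈ Finset.Icc 1 (3 * B), X u) / M ≤ B + 3 * w := by
      rwa [div_le_iff₀' hM0]
    have e2 : (B : ℝ) = 5 * w := by rw [hB]; push_cast; ring
    have e3 : (0 : ℝ) ≤ w := Nat.cast_nonneg _
    rw [Nat.add_sub_cancel]
    push_cast
    linarith
  have hXu : X u ≤ 9 / 10 * M := by
    have := hY0 u
    rw [← div_le_iff₀ hM0]
    linarith
  have hYu : Y u ≤ 9 / 10 := by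
    have := div_nonneg (hX0 u) hM0.le
    linarith
  set s : ℝ := (2 : ℝ) ^ (-(u : ℤ)) with hs
  have hs0 : 0 < s := by positivity
  have hse : ∀ a : ℤ, s * (2 : ℝ) ^ a = 2 ^ (a - u) := fun a => by
    rw [hs, ← zpow_add₀ (by norm_num)]
    congr 1
    ring
  set z₀ : Fin N → ℝ × ℝ := fun ω => if ω ∈ A ∧ GoodIn B w (c₀ ω) (e ω - u) then
    (sgn (pr (Ψ ω) (ker (cls B (e ω - u)))) * (s * r ω)) • ker (cls B (e ω - u)) else 0 with hz₀
  have hz1 : rho p d B z₀ ≤ 2 * s ^ p := by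
    have e1 : ∀ ω, Phi p d B (z₀ ω) ≤ if ω ∈ A then 2 * s ^ p * r ω ^ p else 0 := by
      intro ω
      have hrω := hr0 ω
      simp only [hz₀]
      by_cases h1 : ω ∈ A ∧ GoodIn B w (c₀ ω) (e ω - u)
      · rw [if_pos h1, if_pos h1.1]
        have e2 : ‖(sgn (pr (Ψ ω) (ker (cls B (e ω - u)))) * (s * r ω)) • ker (cls B (e ω - u))‖ =
            s * r ω := by
          rw [norm_smul, norm_ker, Real.norm_eq_abs, abs_mul, abs_sgn, abs_of_nonneg (by positivity)]
          ring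
        rcases hrω.eq_or_lt with h0 | h0
        · rw [← h0, mul_zero, mul_zero, zero_smul, Phi_zero hp1]
          positivity
        refine (Phi_upper hp _ fun j => ?_).trans (le_of_eq ?_)
        · rw [e2]
          by_cases h2 : j ≤ e ω - u - 1
          · left
            calc (2 : ℝ) ^ j ≤ 2 ^ (e ω - u - 1) := zpow_le_zpow_right₀ (by norm_num) h2
              _ = s * 2 ^ e ω / 2 := by rw [hse, zpow_sub_one₀ (by norm_num)]; ring
              _ ≤ s * r ω / 2 := by gcongr; exact he1 ω h0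
          by_cases h3 : e ω - u + w + 1 ≤ j
          · right; left
            calc 4 * 2 ^ d * (s * r ω) ≤ 4 * 2 ^ d * (s * 2 ^ (e ω + 1)) := by
                  gcongr; exact (he2 ω).le
              _ = 2 ^ (e ω - u + w + 1) := by
                  rw [hse, show (4 : ℝ) * 2 ^ d = 2 ^ (w : ℤ) by rw [zpow_natCast, hw]; ring,
                    ← zpow_add₀ (by norm_num)]
                  congr 1
                  ring
              _ ≤ 2 ^ j := zpow_le_zpow_right₀ (by norm_num) h3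
          · right; right
            rw [h1.2.1 j (by omega) (by omega), ell_smul, ell_ker, mul_zero]
        · rw [e2, mul_pow, mul_assoc]
      · rw [if_neg h1, Phi_zero hp1]
        split_ifs
        · positivity
        · rfl
    refine (Finset.sum_le_sum fun ω _ => e1 ω).trans (le_of_eq ?_)
    rw [Finset.sum_ite_mem, Finset.univ_inter, ← Finset.mul_sum, hr1, mul_one]
  have hz2 : s / (512 * n) ≤ dot Ψ z₀ := by
    have e1 : ∀ ω, (if ω ∈ A then s / (2 * n) * (‖Ψ ω‖ * ‖W ω‖ -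
        ‖Ψ ω‖ * ‖W ω‖ * (if GoodIn B w (c₀ ω) (e ω - u) then 0 else 1)) else 0) ≤
        pr (Ψ ω) (z₀ ω) := by
      intro ω
      simp only [hz₀]
      by_cases h1 : ω ∈ A ∧ GoodIn B w (c₀ ω) (e ω - u)
      · rw [if_pos h1, if_pos h1.1, if_pos h1.2, pr_smul, mul_right_comm (sgn _), sgn_mul]
        have e2 := hc₀ ω _ (cls_le B (e ω - u)) h1.2.2
        calc s / (2 * n) * (‖Ψ ω‖ * ‖W ω‖ - ‖Ψ ω‖ * ‖W ω‖ * 0) = ‖Ψ ω‖ / 2 * (s * r ω) := by
              simp only [hr]; ring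
          _ ≤ _ := by
              have := hr0 ω
              gcongr
      · rw [if_neg h1]
        by_cases h2 : ω ∈ A
        · rw [if_pos h2, if_neg (fun hh => h1 ⟨h2, hh⟩)]
          simp [pr]
        · rw [if_neg h2]
          simp [pr]
    refine le_trans ?_ (Finset.sum_le_sum fun ω _ => e1 ω)
    rw [Finset.sum_ite_mem, Finset.univ_inter, ← Finset.mul_sum, Finset.sum_sub_distrib]
    change _ ≤ s / (2 * n) * (M - X u)
    calc s / (512 * n) = s / (2 * n) * (1 / 256) := by ring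
      _ ≤ _ := by
          gcongr
          linarith
  have hT : 0 < s / (512 * n) := by positivity
  have hz3 : 0 < dot Ψ z₀ := hT.trans_le hz2
  refine ⟨u, hu, (s / (512 * n) / dot Ψ z₀) • z₀, fun ω hω => ?_, ?_, ?_⟩
  · simp only [Pi.smul_apply, hz₀]
    rw [if_neg (fun hh => hω hh.1), smul_zero]
  · refine le_trans (rho_mul_le hp1 (fun _ => s / (512 * n) / dot Ψ z₀) (fun _ => ?_) z₀) hz1
    rw [abs_of_pos (by positivity), div_le_one hz3]
    exact hz2
  · rw [dot_smul, div_mul_cancel₀ _ hz3.ne']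
    have e1 : ∀ ω, (2 * s) ^ p * (r ω ^ p - r ω ^ p * (if cls B (e ω + 2 - u) = c₁ ω then 1 else 0))
        ≤ Phi p d B ((s / (512 * n) / 2 ^ γ) • W ω) := by
      intro ω
      have hrω := hr0 ω
      split_ifs with h1
      · rw [mul_one, sub_self, mul_zero]
        exact Phi_nonneg hp1 _
      rw [mul_zero, sub_zero, ← mul_pow]
      rcases hrω.eq_or_lt with h0 | h0
      · rw [← h0, mul_zero, zero_pow (by omega)]
        exact Phi_nonneg hp1 _
      refine le_trans ?_ (Phi_lower hp1 (e ω + 2 - u) _ ?_)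
      · refine pow_le_pow_left₀ (by positivity) ?_ _
        rw [← hse, show e ω + 2 = e ω + 1 + 1 by ring, zpow_add_one₀ (by norm_num)]
        nlinarith [he2 ω]
      · have e2 := hc₁ ω _ (cls_le B (e ω + 2 - u)) h1
        rw [ell_smul, abs_mul, abs_of_pos (by positivity), ← hse]
        calc s * 2 ^ (e ω + 2) = s * (2 ^ e ω * 4) := by
              rw [zpow_add₀ (by norm_num)]; norm_num
          _ ≤ s * (r ω * 4) := by gcongr; exact he1 ω h0
          _ = 2 ^ d * (s / (512 * n) / 2 ^ γ * (‖W ω‖ / 2)) := by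
              simp only [hr, hd, pow_add]
              field_simp
              ring
          _ ≤ _ := by gcongr
    refine le_trans ?_ (Finset.sum_le_sum fun ω _ => e1 ω)
    rw [← Finset.mul_sum, Finset.sum_sub_distrib, hr1]
    change _ ≤ (2 * s) ^ p * (1 - Y u)
    rw [div_eq_mul_inv]
    gcongr
    linarith

end Pool.Agent.H714Z.Sym
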