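import Pool.Agent.H714Z.Sym.Comb
import Pool.Agent.H714Z.Sym.Local

set_option autoImplicit false

/-!
# No large complemented symmetric systems
-/

namespace Pool.Agent.H714Z.Sym

open Finset

variable {p d B N k : ℕ} {C : ℝ} {v f : Fin k → Fin N → ℝ × ℝ}

theorem dot_sum (g : Fin N → ℝ × ℝ) (c : Fin k → ℝ) (z : Fin k → Fin N → ℝ × ℝ) :
    dot g (∑ l, c l • z l) = ∑ l, c l * dot g (z l) := by
  simp only [dot, pr, Finset.sum_apply, Pi.smul_apply, Prod.fst_sum, Prod.snd_sum,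
    Prod.smul_fst, Prod.smul_snd, smul_eq_mul, Finset.mul_sum]
  rw [Finset.sum_comm]
  refine Finset.sum_congr rfl fun ω _ => ?_
  rw [← Finset.sum_add_distrib]
  exact Finset.sum_congr rfl fun l _ => by ring

theorem sum_disj {M : Type*} [AddCommMonoid M] (A : Fin k → Finset (Fin N))
    (G : Fin k → M) (ω : Fin N) (hG : ∀ l, ω ∉ A l → G l = 0)
    (hA : ∀ i j ω, ω ∈ A i → ω ∈ A j → i = j) {i : Fin k} (hi : ω ∈ A i) : ∑ l, G l = G i :=
  Finset.sum_eq_single i (fun l _ hl => hG l fun h => hl (hA l i ω h hi)) (by simp)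

theorem rho_disj (hp : 1 ≤ p) (A : Fin k → Finset (Fin N))
    (hA : ∀ i j ω, ω ∈ A i → ω ∈ A j → i = j) (z : Fin k → Fin N → ℝ × ℝ)
    (hz : ∀ l ω, ω ∉ A l → z l ω = 0) : rho p d B (∑ l, z l) = ∑ l, rho p d B (z l) := by
  unfold rho
  rw [Finset.sum_comm]
  refine Finset.sum_congr rfl fun ω _ => ?_
  rw [Finset.sum_apply]
  by_cases h : ∃ i, ω ∈ A i
  · obtain ⟨i, hi⟩ := h
    rw [sum_disj A (fun l => z l ω) ω (fun l hl => hz l ω hl) hA hi,
      sum_disj A (fun l => Phi p d B (z l ω)) ω (fun l hl => by rw [hz l ω hl, Phi_zero hp]) hA hi]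
  · have h1 : ∀ l, z l ω = 0 := fun l => hz l ω fun hl => h ⟨l, hl⟩
    simp [h1, Phi_zero hp]

theorem nu_sign_disj (hp : 1 ≤ p) (A : Fin k → Finset (Fin N))
    (hA : ∀ i j ω, ω ∈ A i → ω ∈ A j → i = j) (ε : Fin k → Bool) (F : Fin N → ℝ × ℝ) :
    nu hp d B N (∑ l, sg (ε l) • fun ω => if ω ∈ A l then F ω else 0) ≤ nu hp d B N F := by
  refine le_trans (le_of_eq ?_)
    (nu_mul_le hp (fun ω => ∑ l, if ω ∈ A l then sg (ε l) else 0) (fun ω => ?_) F)
  · congr 1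
    funext ω
    rw [Finset.sum_apply, Finset.sum_smul]
    refine Finset.sum_congr rfl fun l _ => ?_
    rw [Pi.smul_apply]
    split_ifs <;> simp
  · by_cases h : ∃ i, ω ∈ A i
    · obtain ⟨i, hi⟩ := h
      rw [sum_disj A _ ω (fun l hl => if_neg hl) hA hi, if_pos hi, abs_sg]
    · rw [Finset.sum_eq_zero fun l _ => if_neg fun hl => h ⟨l, hl⟩]
      simp

theorem Sys.diag (hp : 1 ≤ p) (h : Sys (nu hp d B N) C v f) (hC : 0 ≤ C)
    (A : Fin k → Finset (Fin N)) (hA : ∀ i j ω, ω ∈ A i → ω ∈ A j → i = j)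
    (z : Fin k → Fin N → ℝ × ℝ) (hz : ∀ l ω, ω ∉ A l → z l ω = 0) :
    nu hp d B N (∑ l, dot (f l) (z l) • fun ω => if ω ∈ A l then v l ω else 0) ≤
      4 * C * nu hp d B N (∑ l, z l) := by
  have h1 : nu hp d B N (∑ l, dot (f l) (z l) • v l) ≤ 2 * C * nu hp d B N (∑ l, z l) := by
    refine diag_le _ (fun l i => dot (f i) (z l) • v i) _ fun ε => ?_
    have e1 : ∑ l, ∑ i, (sg (ε l) * sg (ε i)) • dot (f i) (z l) • v i =
        ∑ i, (sg (ε i) * dot (f i) (∑ l, sg (ε l) • z l)) • v i := by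
      rw [Finset.sum_comm]
      refine Finset.sum_congr rfl fun i _ => ?_
      rw [dot_sum, Finset.mul_sum, Finset.sum_smul]
      refine Finset.sum_congr rfl fun l _ => ?_
      rw [smul_smul]
      congr 1
      ring
    have e2 : ∑ l, sg (ε l) • z l = ∑ l, sg (ε l) • fun ω => if ω ∈ A l then (∑ j, z j) ω else 0 := by
      refine Finset.sum_congr rfl fun l _ => ?_
      congr 1
      funext ω
      split_ifs with hω
      · rw [Finset.sum_apply, sum_disj A (fun j => z j ω) ω (fun j hj => hz j ω hj) hA hω]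
      · exact hz l ω hω
    have e3 := nu_sign_disj (d := d) (B := B) hp A hA ε (∑ j, z j)
    rw [← e2] at e3
    have e4 := h.proj (∑ l, sg (ε l) • z l)
    have e5 := mul_le_mul_of_nonneg_left e3 hC
    rw [e1]
    linarith [h.sign_le ε (fun i => dot (f i) (∑ l, sg (ε l) • z l))]
  refine diag_le _ (fun l i => dot (f i) (z i) • fun ω => if ω ∈ A l then v i ω else 0) _
    fun ε => ?_
  have e1 : ∑ l, ∑ i, (sg (ε l) * sg (ε i)) • dot (f i) (z i) •
      (fun ω => if ω ∈ A l then v i ω else 0) = ∑ l, sg (ε l) • fun ω =>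
        if ω ∈ A l then (∑ i, (sg (ε i) * dot (f i) (z i)) • v i) ω else 0 := by
    refine Finset.sum_congr rfl fun l _ => ?_
    funext ω
    simp only [Finset.sum_apply, Pi.smul_apply]
    split_ifs
    · rw [Finset.smul_sum]
      refine Finset.sum_congr rfl fun i _ => ?_
      rw [smul_smul, smul_smul, mul_assoc]
    · simp
  rw [e1]
  linarith [nu_sign_disj (d := d) (B := B) hp A hA ε (∑ i, (sg (ε i) * dot (f i) (z i)) • v i),
    h.sign_le ε (fun i => dot (f i) (z i))]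

theorem no_blocks {γ : ℕ} (hp : 1 ≤ p) (hp' : γ + 12 + 3 ≤ p)
    (h : Sys (nu hp (γ + 12) (5 * (γ + 12 + 2)) N) C v f) (hC : 0 ≤ C) (hγ : 4 * C < 2 ^ γ)
    (J : Finset (Fin k))
    (hJ : J.card = 3 * (5 * (γ + 12 + 2)) * 2 ^ (3 * (5 * (γ + 12 + 2)) * p))
    (A : Fin k → Finset (Fin N)) (hA : ∀ i j ω, ω ∈ A i → ω ∈ A j → i = j)
    (hc : ∀ i ∈ J, 1 / 8 ≤ ∑ ω ∈ A i, pr (f i ω) (v i ω)) : False := by
  classical
  choose! u hu z hz0 hz1 hz2 using fun i hi => local_scale hp' (v i) (f i) (A i) (hc i hi)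
  set d := γ + 12 with hd
  set B := 5 * (d + 2) with hB
  obtain ⟨a, ha, hcard⟩ := Finset.exists_le_card_fiber_of_mul_le_card_of_maps_to
    (s := J) (t := Finset.Icc 1 (3 * B)) (f := u) (n := 2 ^ (3 * B * p)) hu
    ⟨1, Finset.mem_Icc.2 ⟨le_rfl, by omega⟩⟩ (by rw [hJ, Nat.card_Icc, Nat.add_sub_cancel])
  obtain ⟨ha1, ha2⟩ := Finset.mem_Icc.1 ha
  have hap : 1 ≤ a * p := Nat.mul_pos ha1 hp
  obtain ⟨T, hT, hTc⟩ := Finset.exists_subset_card_eq (s := J.filter (fun i => u i = a))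
    (n := 2 ^ (a * p - 1)) (le_trans (Nat.pow_le_pow_right (by norm_num)
      ((Nat.sub_le _ _).trans (Nat.mul_le_mul_right p ha2))) hcard)
  have hT1 : ∀ i ∈ T, i ∈ J ∧ u i = a := fun i hi => Finset.mem_filter.1 (hT hi)
  set s : ℝ := (2 : ℝ) ^ (-(a : ℤ)) with hs
  have hTs : (T.card : ℝ) * (2 * s ^ p) = 1 := by
    rw [hTc, hs, zpow_neg, zpow_natCast, inv_pow, ← pow_mul]
    push_cast
    rw [← mul_assoc, ← pow_succ, Nat.sub_add_cancel hap]
    field_simp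
  set z' : Fin k → Fin N → ℝ × ℝ := fun l => if l ∈ T then z l else 0 with hz'
  have h1 : ∀ l ω, ω ∉ A l → z' l ω = 0 := by
    intro l ω hω
    simp only [hz']
    split_ifs with hl
    · exact hz0 l (hT1 l hl).1 ω hω
    · rfl
  have h2 : nu hp d B N (∑ l, z' l) ≤ 1 := by
    refine nu_le_one hp ?_
    rw [rho_disj hp A hA z' h1, ← hTs, ← nsmul_eq_mul, ← Finset.sum_const,
      ← Finset.univ_inter T, ← Finset.sum_ite_mem]
    refine Finset.sum_le_sum fun l _ => ?_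
    simp only [hz']
    split_ifs with hl
    · have := hz1 l (hT1 l hl).1
      rwa [(hT1 l hl).2] at this
    · simp [rho, Phi_zero hp]
  have h3 := h.diag hp hC A hA z' h1
  have h4 : nu hp d B N (∑ l, dot (f l) (z' l) • fun ω => if ω ∈ A l then v l ω else 0) <
      2 ^ γ := by nlinarith
  have h5 := rho_inv_smul hp h4
  rw [Finset.smul_sum, rho_disj hp A hA _ (fun l ω hω => by simp [hω])] at h5
  have h6 : ∑ l, (if l ∈ T then (2 * s) ^ p / 10 else 0) ≤ 1 := by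
    refine le_trans (Finset.sum_le_sum fun l _ => ?_) h5
    split_ifs with hl
    · have e1 := hz2 l (hT1 l hl).1
      rw [(hT1 l hl).2] at e1
      refine e1.trans ?_
      refine le_trans (le_of_eq ?_) (Finset.sum_le_sum (f := fun ω => if ω ∈ A l then
        Phi p d B ((dot (f l) (z l) / 2 ^ γ) • v l ω) else 0) fun ω _ => ?_)
      · rw [Finset.sum_ite_mem, Finset.univ_inter]
      split_ifs with hω
      · simp only [Pi.smul_apply, hz', if_pos hl, if_pos hω, smul_smul]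
        rw [div_eq_inv_mul]
      · exact Phi_nonneg hp _
    · exact Finset.sum_nonneg fun ω _ => Phi_nonneg hp _
  rw [Finset.sum_ite_mem, Finset.univ_inter, Finset.sum_const, nsmul_eq_mul, mul_pow] at h6
  have h7 : (2 : ℝ) ^ 5 ≤ 2 ^ p := pow_le_pow_right₀ (by norm_num) (by omega)
  have h8 : (T.card : ℝ) * (2 ^ p * s ^ p / 10) = 2 ^ p / 20 * (T.card * (2 * s ^ p)) := by ring
  rw [h8, hTs] at h6
  norm_num at h7
  linarith

/-- For every constant there are parameters such that the spaces of the family contain no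
complemented symmetric systems of large size. -/
theorem main (C : ℝ) : ∃ (p : ℕ) (hp : 1 ≤ p) (d B k₀ : ℕ), ∀ N k : ℕ, k₀ ≤ k →
    ∀ v f : Fin k → Fin N → ℝ × ℝ, ¬ Sys (nu hp d B N) C v f := by
  wlog hC : 0 ≤ C generalizing C
  · obtain ⟨p, hp, d, B, k₀, h⟩ := this 0 le_rfl
    refine ⟨p, hp, d, B, k₀, fun N k hk v f hs => h N k hk v f ⟨hs.one, fun F => ?_, hs.sym⟩⟩
    exact (hs.proj F).trans (mul_le_mul_of_nonneg_right (not_le.1 hC).le (apply_nonneg _ _))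
  obtain ⟨γ, hγ⟩ := pow_unbounded_of_one_lt (4 * C) (one_lt_two (α := ℝ))
  obtain ⟨Q₀, hQ₀⟩ := exists_nat_ge (480 * C * 2 ^ (γ + 12))
  set Q := Q₀ + (γ + 12 + 3) with hQ
  have hQ0 : 0 < Q := by omega
  have hp' : γ + 12 + 3 ≤ 2 * Q ^ 2 := by nlinarith
  have hp : 1 ≤ 2 * Q ^ 2 := by omega
  set m := 3 * (5 * (γ + 12 + 2)) * 2 ^ (3 * (5 * (γ + 12 + 2)) * (2 * Q ^ 2)) with hm
  have hm0 : 0 < m := Nat.mul_pos (by omega) (Nat.two_pow_pos _)
  obtain ⟨Δ, hΔ⟩ := exists_nat_ge (16 * m * ((Q ^ 2 : ℕ) : ℝ) ^ 2 * (10 * C * 2 ^ (γ + 12)))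
  obtain ⟨k₀, hk₀⟩ := exists_nat_ge (4 * (10 * C * 2 ^ (γ + 12)) * (m * (2 * Δ + 1) : ℕ))
  refine ⟨2 * Q ^ 2, hp, γ + 12, 5 * (γ + 12 + 2), k₀ + 1, fun N k hk v f h => ?_⟩
  obtain ⟨J, hJ, A, hA, hc⟩ := h.blocks hQ0 hp hC (by omega)
    (hQ₀.trans (by exact_mod_cast Nat.le_add_right _ _)) hm0 hΔ
    (hk₀.trans (by exact_mod_cast (by omega : k₀ ≤ k)))
  exact no_blocks hp hp' h hC hγ J hJ A hA hc

end Pool.Agent.H714Z.Sym
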