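import Pool.Agent.H714Z.Sym.Phi

set_option autoImplicit false

/-!
# The Luxemburg norm of the Young function
-/

namespace Pool.Agent.H714Z.Sym

open Finset

variable {p d B N : ℕ}

/-- The modular. -/
noncomputable def rho (p d B : ℕ) {N : ℕ} (F : Fin N → ℝ × ℝ) : ℝ := ∑ ω, Phi p d B (F ω)

/-- The unit ball. -/
def ball (p d B N : ℕ) : Set (Fin N → ℝ × ℝ) := {F | rho p d B F ≤ 1}

theorem rho_mul_le (hp : 1 ≤ p) (m : Fin N → ℝ) (hm : ∀ ω, |m ω| ≤ 1) (F : Fin N → ℝ × ℝ) :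
    rho p d B (fun ω => m ω • F ω) ≤ rho p d B F :=
  Finset.sum_le_sum fun ω _ => Phi_smul_le hp (hm ω) _

theorem ball_balanced (hp : 1 ≤ p) : Balanced ℝ (ball p d B N) := by
  intro a ha F hF
  obtain ⟨G, hG, rfl⟩ := hF
  exact le_trans (rho_mul_le hp (fun _ => a) (fun _ => ha) G) hG

theorem ball_convex (hp : 1 ≤ p) : Convex ℝ (ball p d B N) := by
  intro F hF G hG a b ha hb hab
  have h1 : rho p d B (a • F + b • G) ≤ a * rho p d B F + b * rho p d B G := by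
    unfold rho
    rw [Finset.mul_sum, Finset.mul_sum, ← Finset.sum_add_distrib]
    exact Finset.sum_le_sum fun ω _ => Phi_convex hp ha hb hab _ _
  have h2 : rho p d B F ≤ 1 := hF
  have h3 : rho p d B G ≤ 1 := hG
  change rho p d B _ ≤ 1
  nlinarith

theorem smul_mem_ball (hp : 1 ≤ p) (F : Fin N → ℝ × ℝ) {s : ℝ} (hs : 0 < s)
    (h : ∑ ω, ‖F ω‖ ^ p ≤ s ^ p) : (5 * 2 ^ d * s)⁻¹ • F ∈ ball p d B N := by
  change ∑ ω, Phi p d B _ ≤ 1
  have h1 : ∀ ω, Phi p d B (((5 * 2 ^ d * s)⁻¹ • F) ω) ≤ ‖F ω‖ ^ p / s ^ p := by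
    intro ω
    refine (Phi_le hp _).trans (le_of_eq ?_)
    rw [← div_pow, Pi.smul_apply, norm_smul, Real.norm_of_nonneg (by positivity)]
    congr 1
    field_simp
  refine (Finset.sum_le_sum fun ω _ => h1 ω).trans ?_
  rw [← Finset.sum_div, div_le_one (by positivity)]
  exact h

theorem ball_absorbent (hp : 1 ≤ p) : Absorbent ℝ (ball p d B N) := by
  refine absorbent_iff_eventually_nhdsNE_zero.2 fun F => ?_
  set s := ∑ ω, ‖F ω‖ ^ p + 1 with hs
  have hs0 : 0 < s := by positivity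
  have h1 : ∑ ω, ‖F ω‖ ^ p ≤ s ^ p := by
    have e0 : 0 ≤ ∑ ω, ‖F ω‖ ^ p := by positivity
    have e1 : s ≤ s ^ p := le_self_pow₀ (by linarith) (by omega)
    linarith
  have h2 := smul_mem_ball (d := d) (B := B) hp F hs0 h1
  have h3 : (0 : ℝ) < (5 * 2 ^ d * s)⁻¹ := by positivity
  refine Filter.Eventually.filter_mono nhdsWithin_le_nhds ?_
  filter_upwards [Metric.closedBall_mem_nhds (0 : ℝ) h3] with c hc
  rw [mem_closedBall_zero_iff] at hc
  refine (ball_balanced hp).smul_mem_mono h2 ?_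
  rwa [Real.norm_of_nonneg h3.le]

/-- The norm. -/
noncomputable def nu (hp : 1 ≤ p) (d B N : ℕ) : Seminorm ℝ (Fin N → ℝ × ℝ) :=
  gaugeSeminorm (ball_balanced (d := d) (B := B) hp) (ball_convex hp) (ball_absorbent hp)

theorem nu_eq (hp : 1 ≤ p) (F : Fin N → ℝ × ℝ) : nu hp d B N F = gauge (ball p d B N) F := rfl

theorem nu_le_one (hp : 1 ≤ p) {F : Fin N → ℝ × ℝ} (h : rho p d B F ≤ 1) : nu hp d B N F ≤ 1 :=
  gauge_le_one_of_mem h

theorem rho_le_one (hp : 1 ≤ p) {F : Fin N → ℝ × ℝ} (h : nu hp d B N F < 1) :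
    rho p d B F ≤ 1 := by
  have h0 : (0 : Fin N → ℝ × ℝ) ∈ ball p d B N := by
    change ∑ ω, Phi p d B _ ≤ 1
    simp [Phi_zero hp]
  exact setOfPred_gauge_lt_one_subset_self (ball_convex hp) h0 (ball_absorbent hp) h

theorem nu_le_of_forall (hp : 1 ≤ p) {F : Fin N → ℝ × ℝ} {t : ℝ} (ht : 0 ≤ t)
    (h : ∀ s, t < s → rho p d B (s⁻¹ • F) ≤ 1) : nu hp d B N F ≤ t := by
  refine le_of_forall_gt_imp_ge_of_dense fun s hs => ?_
  have hs0 : 0 < s := ht.trans_lt hs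
  have h1 := nu_le_one hp (h s hs)
  rw [map_smul_eq_mul, Real.norm_of_nonneg (by positivity), inv_mul_le_iff₀ hs0, mul_one] at h1
  exact h1

theorem rho_inv_smul (hp : 1 ≤ p) {F : Fin N → ℝ × ℝ} {s : ℝ} (hs : nu hp d B N F < s) :
    rho p d B (s⁻¹ • F) ≤ 1 := by
  have hs0 : 0 < s := (apply_nonneg _ _).trans_lt hs
  refine rho_le_one hp ?_
  rw [map_smul_eq_mul, Real.norm_of_nonneg (by positivity), inv_mul_lt_iff₀ hs0, mul_one]
  exact hs

theorem nu_mul_le (hp : 1 ≤ p) (m : Fin N → ℝ) (hm : ∀ ω, |m ω| ≤ 1) (F : Fin N → ℝ × ℝ) :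
    nu hp d B N (fun ω => m ω • F ω) ≤ nu hp d B N F := by
  refine nu_le_of_forall hp (apply_nonneg _ _) fun s hs => ?_
  refine le_trans (le_of_eq ?_) ((rho_mul_le hp m hm _).trans (rho_inv_smul hp hs))
  congr 1
  funext ω
  simp only [Pi.smul_apply]
  rw [smul_comm]

theorem nu_upper (hp : 1 ≤ p) (F : Fin N → ℝ × ℝ) {s : ℝ} (hs : 0 ≤ s)
    (h : ∑ ω, ‖F ω‖ ^ p ≤ s ^ p) : nu hp d B N F ≤ 5 * 2 ^ d * s := by
  refine nu_le_of_forall hp (by positivity) fun t ht => ?_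
  have hD : (0 : ℝ) < 5 * 2 ^ d := by positivity
  have h1 : s < t / (5 * 2 ^ d) := by rwa [lt_div_iff₀' hD]
  have h2 := smul_mem_ball (d := d) (B := B) hp F (hs.trans_lt h1) (h.trans (by gcongr))
  rwa [mul_div_cancel₀ _ hD.ne'] at h2

theorem nu_lower (hp : 1 ≤ p) (F : Fin N → ℝ × ℝ) : ∑ ω, ‖F ω‖ ^ p ≤ nu hp d B N F ^ p := by
  have key : ∀ s, nu hp d B N F < s → ∑ ω, ‖F ω‖ ^ p ≤ s ^ p := by
    intro s hs
    have hs0 : 0 < s := (apply_nonneg _ _).trans_lt hs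
    have h1 := rho_inv_smul hp hs
    have h2 : ∑ ω, ‖F ω‖ ^ p / s ^ p ≤ 1 := by
      refine le_trans (Finset.sum_le_sum fun ω _ => le_trans (le_of_eq ?_) (pow_le_Phi hp _)) h1
      rw [← div_pow, Pi.smul_apply, norm_smul, Real.norm_of_nonneg (by positivity)]
      congr 1
      field_simp
    rwa [← Finset.sum_div, div_le_one (by positivity)] at h2
  have h3 : Filter.Tendsto (fun s : ℝ => s ^ p) (nhdsWithin (nu hp d B N F) (Set.Ioi (nu hp d B N F)))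
      (nhds (nu hp d B N F ^ p)) :=
    ((continuous_pow p).tendsto _).mono_left nhdsWithin_le_nhds
  exact ge_of_tendsto h3 (eventually_nhdsWithin_of_forall key)

theorem eq_zero_of_nu (hp : 1 ≤ p) {F : Fin N → ℝ × ℝ} (h : nu hp d B N F = 0) : F = 0 := by
  have h1 := nu_lower (d := d) (B := B) hp F
  rw [h, zero_pow (by omega)] at h1
  funext ω
  have h2 := (Finset.sum_eq_zero_iff_of_nonneg (fun ω _ => by positivity)).1
    (le_antisymm h1 (Finset.sum_nonneg fun ω _ => by positivity)) ω (Finset.mem_univ _)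
  simpa using pow_eq_zero_iff (by omega : p ≠ 0) |>.1 h2

end Pool.Agent.H714Z.Sym
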