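import Mathlib

set_option autoImplicit false

/-!
# A Young function on the plane whose anisotropy changes with the scale
-/

namespace Pool.Agent.H714Z.Sym

open Finset

/-- The class (0, 1 or 2) of the scale `j`; it is constant on blocks of length `B`. -/
def cls (B : ℕ) (j : ℤ) : ℕ :=
  if j % (3 * B : ℤ) < B then 0 else if j % (3 * B : ℤ) < 2 * B then 1 else 2

theorem cls_le (B : ℕ) (j : ℤ) : cls B j ≤ 2 := by
  unfold cls; split_ifs <;> omega

/-- Three linear functionals on the plane. -/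
def ell (c : ℕ) (z : ℝ × ℝ) : ℝ := if c = 0 then z.1 else if c = 1 then z.2 else z.1 + z.2

/-- Their kernels. -/
def ker (c : ℕ) : ℝ × ℝ := if c = 0 then (0, 1) else if c = 1 then (1, 0) else (1, -1)

theorem ell_ker (c : ℕ) : ell c (ker c) = 0 := by
  unfold ell ker; split_ifs <;> simp

theorem norm_ker (c : ℕ) : ‖ker c‖ = 1 := by
  unfold ker; split_ifs <;> simp [Prod.norm_def]

theorem ell_smul (c : ℕ) (m : ℝ) (z : ℝ × ℝ) : ell c (m • z) = m * ell c z := by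
  unfold ell; split_ifs <;> simp [mul_add]

theorem ell_add (c : ℕ) (z z' : ℝ × ℝ) : ell c (z + z') = ell c z + ell c z' := by
  unfold ell; split_ifs <;> simp; ring

theorem abs_fst_le (z : ℝ × ℝ) : |z.1| ≤ ‖z‖ := norm_fst_le z
theorem abs_snd_le (z : ℝ × ℝ) : |z.2| ≤ ‖z‖ := norm_snd_le z
theorem norm_eq_max (z : ℝ × ℝ) : ‖z‖ = max |z.1| |z.2| := rfl

theorem abs_ell_le (c : ℕ) (z : ℝ × ℝ) : |ell c z| ≤ 2 * ‖z‖ := by
  have h1 := abs_fst_le z
  have h2 := abs_snd_le z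
  have h3 := norm_nonneg z
  have h4 := abs_add_le z.1 z.2
  unfold ell; split_ifs <;> linarith

theorem dir_out (z : ℝ × ℝ) : ∃ c₀ : ℕ, ∀ c ≤ 2, c ≠ c₀ → ‖z‖ / 2 ≤ |ell c z| := by
  rw [norm_eq_max]
  obtain ⟨x, y⟩ := z
  simp only
  have h1 := abs_add_le (x + y) (-y)
  have h2 := abs_add_le (x + y) (-x)
  rw [abs_neg] at h1 h2
  rw [show x + y + -y = x by ring] at h1
  rw [show x + y + -x = y by ring] at h2
  have h3 := abs_nonneg x
  have h4 := abs_nonneg y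
  by_cases hx : max |x| |y| / 2 ≤ |x|
  · by_cases hy : max |x| |y| / 2 ≤ |y|
    · refine ⟨2, fun c hc hc' => ?_⟩
      interval_cases c <;> simp_all [ell]
    · refine ⟨1, fun c hc hc' => ?_⟩
      interval_cases c
      · simpa [ell] using hx
      · simp at hc'
      · simp only [ell, OfNat.ofNat_ne_zero, if_false, OfNat.ofNat_ne_one]
        rcases max_choice |x| |y| with h | h <;> rw [h] at hx hy ⊢ <;> linarith
  · refine ⟨0, fun c hc hc' => ?_⟩
    interval_cases c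
    · simp at hc'
    · simp only [ell, one_ne_zero, if_false, if_true]
      rcases max_choice |x| |y| with h | h <;> rw [h] at hx ⊢ <;> linarith
    · simp only [ell, OfNat.ofNat_ne_zero, if_false, OfNat.ofNat_ne_one]
      rcases max_choice |x| |y| with h | h <;> rw [h] at hx ⊢ <;> linarith

/-- The pairing on the plane. -/
def pr (f z : ℝ × ℝ) : ℝ := f.1 * z.1 + f.2 * z.2

theorem dir_in (f : ℝ × ℝ) : ∃ c₀ : ℕ, ∀ c ≤ 2, c ≠ c₀ → ‖f‖ / 2 ≤ |pr f (ker c)| := by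
  obtain ⟨c₀, h⟩ := dir_out (-f.2, f.1)
  refine ⟨c₀, fun c hc hc' => ?_⟩
  have h1 := h c hc hc'
  have h2 : ‖(-f.2, f.1)‖ = ‖f‖ := by
    rw [norm_eq_max, norm_eq_max, abs_neg, max_comm]
  rw [h2] at h1
  refine h1.trans (le_of_eq ?_)
  interval_cases c
  · simp [ell, pr, ker]
  · simp [ell, pr, ker]
  · simp only [ell, pr, ker, OfNat.ofNat_ne_zero, if_false, OfNat.ofNat_ne_one]
    congr 1; ring

/-- The truncated affine pieces. -/
noncomputable def hh (p d : ℕ) (j : ℤ) (r : ℝ) : ℝ :=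
  max 0 (((2 : ℝ) ^ j) ^ (p - 1) * (2 * 2 ^ d * r - 2 ^ j))

/-- The anisotropic part. -/
noncomputable def TT (p d B : ℕ) (z : ℝ × ℝ) : ℝ := ⨆ j : ℤ, hh p d j |ell (cls B j) z|

/-- The Young function. -/
noncomputable def Phi (p d B : ℕ) (z : ℝ × ℝ) : ℝ := ‖z‖ ^ p + TT p d B z

variable {p d B : ℕ}

theorem hh_nonneg (j : ℤ) (r : ℝ) : 0 ≤ hh p d j r := le_max_left _ _

theorem hh_mono (j : ℤ) {r r' : ℝ} (h : r ≤ r') : hh p d j r ≤ hh p d j r' := by
  unfold hh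
  gcongr

theorem hh_le (hp : 1 ≤ p) (j : ℤ) {r : ℝ} (hr : 0 ≤ r) : hh p d j r ≤ (2 * 2 ^ d * r) ^ p := by
  unfold hh
  refine max_le (by positivity) ?_
  have hs : (0 : ℝ) < 2 ^ j := by positivity
  by_cases h : (2 : ℝ) ^ j ≤ 2 * 2 ^ d * r
  · obtain ⟨n, rfl⟩ : ∃ n, p = n + 1 := ⟨p - 1, by omega⟩
    rw [Nat.add_sub_cancel, pow_succ]
    gcongr
    linarith
  · refine le_trans (mul_nonpos_of_nonneg_of_nonpos (by positivity) (by linarith)) (by positivity)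

theorem hh_le2 (hp : 1 ≤ p) (j : ℤ) (c : ℕ) (z : ℝ × ℝ) :
    hh p d j |ell c z| ≤ (4 * 2 ^ d * ‖z‖) ^ p := by
  refine (hh_mono j (abs_ell_le c z)).trans ((hh_le hp j (by positivity)).trans (le_of_eq ?_))
  congr 1; ring

theorem hh_le_TT (hp : 1 ≤ p) (j : ℤ) (z : ℝ × ℝ) : hh p d j |ell (cls B j) z| ≤ TT p d B z :=
  le_ciSup (f := fun j : ℤ => hh p d j |ell (cls B j) z|)
    ⟨(4 * 2 ^ d * ‖z‖) ^ p, by rintro _ ⟨j, rfl⟩; exact hh_le2 hp j _ z⟩ j

theorem TT_nonneg (hp : 1 ≤ p) (z : ℝ × ℝ) : 0 ≤ TT p d B z :=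
  (hh_nonneg 0 _).trans (hh_le_TT hp 0 z)

theorem pow_le_Phi (hp : 1 ≤ p) (z : ℝ × ℝ) : ‖z‖ ^ p ≤ Phi p d B z :=
  le_add_of_nonneg_right (TT_nonneg hp z)

theorem Phi_nonneg (hp : 1 ≤ p) (z : ℝ × ℝ) : 0 ≤ Phi p d B z :=
  le_trans (by positivity) (pow_le_Phi hp z)

theorem Phi_le (hp : 1 ≤ p) (z : ℝ × ℝ) : Phi p d B z ≤ (5 * 2 ^ d * ‖z‖) ^ p := by
  have h1 : TT p d B z ≤ (4 * 2 ^ d * ‖z‖) ^ p := ciSup_le fun j => hh_le2 hp j _ z
  have h2 : ‖z‖ ^ p ≤ (2 ^ d * ‖z‖) ^ p := by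
    have : (1 : ℝ) ≤ 2 ^ d := one_le_pow₀ (by norm_num)
    gcongr
    nlinarith [norm_nonneg z]
  have h3 := pow_add_pow_le (x := 2 ^ d * ‖z‖) (y := 4 * 2 ^ d * ‖z‖) (by positivity)
    (by positivity) (n := p) (by omega)
  rw [show (2 : ℝ) ^ d * ‖z‖ + 4 * 2 ^ d * ‖z‖ = 5 * 2 ^ d * ‖z‖ by ring] at h3
  unfold Phi
  linarith

theorem Phi_zero (hp : 1 ≤ p) : Phi p d B 0 = 0 := by
  refine le_antisymm ((Phi_le hp 0).trans ?_) (Phi_nonneg hp 0)
  simp [zero_pow (by omega : p ≠ 0)]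

theorem Phi_smul_le (hp : 1 ≤ p) {m : ℝ} (hm : |m| ≤ 1) (z : ℝ × ℝ) :
    Phi p d B (m • z) ≤ Phi p d B z := by
  unfold Phi
  refine add_le_add ?_ (ciSup_le fun j => le_trans (hh_mono j ?_) (hh_le_TT hp j z))
  · rw [norm_smul, Real.norm_eq_abs]
    gcongr
    exact mul_le_of_le_one_left (norm_nonneg z) hm
  · rw [ell_smul, abs_mul]
    exact mul_le_of_le_one_left (abs_nonneg _) hm

theorem Phi_convex (hp : 1 ≤ p) {a b : ℝ} (ha : 0 ≤ a) (hb : 0 ≤ b) (hab : a + b = 1)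
    (z z' : ℝ × ℝ) : Phi p d B (a • z + b • z') ≤ a * Phi p d B z + b * Phi p d B z' := by
  have h1 : ‖a • z + b • z'‖ ^ p ≤ a * ‖z‖ ^ p + b * ‖z'‖ ^ p := by
    have e1 : ‖a • z + b • z'‖ ≤ a * ‖z‖ + b * ‖z'‖ := by
      refine (norm_add_le _ _).trans (le_of_eq ?_)
      rw [norm_smul, norm_smul, Real.norm_of_nonneg ha, Real.norm_of_nonneg hb]
    have e2 := (convexOn_pow (𝕜 := ℝ) p).2 (norm_nonneg z) (norm_nonneg z') ha hb hab
    simp only [smul_eq_mul] at e2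
    exact le_trans (by gcongr) e2
  have h2 : TT p d B (a • z + b • z') ≤ a * TT p d B z + b * TT p d B z' := by
    refine ciSup_le fun j => ?_
    have e1 : |ell (cls B j) (a • z + b • z')| ≤
        a * |ell (cls B j) z| + b * |ell (cls B j) z'| := by
      rw [ell_add, ell_smul, ell_smul]
      refine (abs_add_le _ _).trans (le_of_eq ?_)
      rw [abs_mul, abs_mul, abs_of_nonneg ha, abs_of_nonneg hb]
    refine (hh_mono j e1).trans ?_
    have e2 := hh_le_TT (d := d) (B := B) hp j z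
    have e3 := hh_le_TT (d := d) (B := B) hp j z'
    refine le_trans ?_ (add_le_add (mul_le_mul_of_nonneg_left e2 ha)
      (mul_le_mul_of_nonneg_left e3 hb))
    generalize |ell (cls B j) z| = r
    generalize |ell (cls B j) z'| = r'
    refine max_le (add_nonneg (mul_nonneg ha (hh_nonneg _ _)) (mul_nonneg hb (hh_nonneg _ _))) ?_
    have e4 : ((2 : ℝ) ^ j) ^ (p - 1) * (2 * 2 ^ d * r - 2 ^ j) ≤ hh p d j r := le_max_right _ _
    have e5 : ((2 : ℝ) ^ j) ^ (p - 1) * (2 * 2 ^ d * r' - 2 ^ j) ≤ hh p d j r' := le_max_right _ _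
    refine le_trans (le_of_eq ?_) (add_le_add (mul_le_mul_of_nonneg_left e4 ha)
      (mul_le_mul_of_nonneg_left e5 hb))
    have : b = 1 - a := by linarith
    rw [this]; ring
  unfold Phi
  linarith

theorem Phi_lower (hp : 1 ≤ p) (j : ℤ) (z : ℝ × ℝ)
    (h : (2 : ℝ) ^ j ≤ 2 ^ d * |ell (cls B j) z|) : ((2 : ℝ) ^ j) ^ p ≤ Phi p d B z := by
  have h1 := hh_le_TT (d := d) (B := B) hp j z
  have h2 : ((2 : ℝ) ^ j) ^ (p - 1) * (2 * 2 ^ d * |ell (cls B j) z| - 2 ^ j) ≤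
      hh p d j |ell (cls B j) z| := le_max_right _ _
  have h3 : ((2 : ℝ) ^ j) ^ p ≤
      ((2 : ℝ) ^ j) ^ (p - 1) * (2 * 2 ^ d * |ell (cls B j) z| - 2 ^ j) := by
    obtain ⟨n, rfl⟩ : ∃ n, p = n + 1 := ⟨p - 1, by omega⟩
    rw [Nat.add_sub_cancel, pow_succ]
    gcongr
    linarith
  have h4 : 0 ≤ ‖z‖ ^ p := by positivity
  unfold Phi
  linarith

theorem Phi_upper (hp : d + 3 ≤ p) (z : ℝ × ℝ)
    (h : ∀ j : ℤ, (2 : ℝ) ^ j ≤ ‖z‖ / 2 ∨ 4 * 2 ^ d * ‖z‖ ≤ (2 : ℝ) ^ j ∨ ell (cls B j) z = 0) :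
    Phi p d B z ≤ 2 * ‖z‖ ^ p := by
  have h1 : TT p d B z ≤ ‖z‖ ^ p := by
    refine ciSup_le fun j => max_le (by positivity) ?_
    have hs : (0 : ℝ) < 2 ^ j := by positivity
    have hD : (0 : ℝ) < 2 ^ d := by positivity
    have h2 := abs_ell_le (cls B j) z
    have hz := norm_nonneg z
    rcases h j with h3 | h3 | h3
    · obtain ⟨n, rfl⟩ : ∃ n, p = n + 1 := ⟨p - 1, by omega⟩
      rw [Nat.add_sub_cancel, pow_succ]
      have h4 : (4 : ℝ) * 2 ^ d ≤ 2 ^ n := by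
        rw [show (4 : ℝ) * 2 ^ d = 2 ^ (d + 2) by ring]
        exact pow_le_pow_right₀ (by norm_num) (by omega)
      calc ((2 : ℝ) ^ j) ^ n * (2 * 2 ^ d * |ell (cls B j) z| - 2 ^ j)
          ≤ (‖z‖ / 2) ^ n * (4 * 2 ^ d * ‖z‖) := by
            refine le_trans (mul_le_mul_of_nonneg_left (b := 2 * 2 ^ d * |ell (cls B j) z| - 2 ^ j)
              (c := 4 * 2 ^ d * ‖z‖) (by nlinarith) (by positivity)) ?_
            gcongr
        _ ≤ (‖z‖ / 2) ^ n * (2 ^ n * ‖z‖) := by gcongr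
        _ = ‖z‖ ^ n * ‖z‖ := by rw [div_pow]; field_simp
    · exact le_trans (mul_nonpos_of_nonneg_of_nonpos (by positivity) (by nlinarith))
        (by positivity)
    · rw [h3]
      exact le_trans (mul_nonpos_of_nonneg_of_nonpos (by positivity) (by simp; positivity))
        (by positivity)
  unfold Phi
  linarith

/-! ### Counting scales -/

theorem count_res (hB : 0 < B) (a : ℤ) (S : Finset ℤ) (Q : ℕ → Prop) [DecidablePred Q]
    (hQ : ∀ u : ℕ, Q u → (a - u) % (3 * B : ℤ) ∈ S) :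
    ((Finset.Icc 1 (3 * B)).filter Q).card ≤ S.card := by
  refine Finset.card_le_card_of_injOn (fun u : ℕ => (a - u) % (3 * B : ℤ)) ?_ ?_
  · intro u hu
    exact hQ u (Finset.mem_filter.1 hu).2
  · intro u hu u' hu' h
    have h1 := Finset.mem_Icc.1 (Finset.mem_filter.1 hu).1
    have h2 := Finset.mem_Icc.1 (Finset.mem_filter.1 hu').1
    have h3 : (3 * B : ℤ) ∣ (a - u') - (a - u) := Int.ModEq.dvd h
    have h4 : (a - u') - (a - u) = 0 := by
      refine Int.eq_zero_of_abs_lt_dvd h3 ?_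
      rw [abs_lt]
      constructor <;> omega
    omega

theorem out_count (hB : 0 < B) (a : ℤ) (c₀ : ℕ) :
    ∑ u ∈ Finset.Icc 1 (3 * B), (if cls B (a - u) = c₀ then (1 : ℝ) else 0) ≤ B := by
  rw [Finset.sum_boole]
  have h := count_res hB a (Finset.Ico (c₀ * B : ℤ) (c₀ * B + B)) (fun u => cls B (a - u) = c₀) (by
    intro u hu
    have h1 := Int.emod_nonneg (a - u) (b := 3 * B) (by omega)
    have h2 := Int.emod_lt_of_pos (a - u) (b := 3 * B) (by omega)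
    unfold cls at hu
    rw [Finset.mem_Ico]
    split_ifs at hu <;> subst hu <;> constructor <;> push_cast <;> omega)
  rw [Int.card_Ico, add_sub_cancel_left, Int.toNat_natCast] at h
  exact_mod_cast h

/-- The class is constant on the window of length `w` starting at `a`, and differs from `c₀`. -/
def GoodIn (B w c₀ : ℕ) (a : ℤ) : Prop :=
  (∀ j : ℤ, a ≤ j → j ≤ a + w → cls B j = cls B a) ∧ cls B a ≠ c₀

open Classical in
theorem in_count (hB : 0 < B) (w : ℕ) (a : ℤ) (c₀ : ℕ) :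
    ∑ u ∈ Finset.Icc 1 (3 * B), (if GoodIn B w c₀ (a - u) then (0 : ℝ) else 1) ≤ B + 3 * w := by
  have h0 : ∀ u : ℕ, (if GoodIn B w c₀ (a - u) then (0 : ℝ) else 1) =
      if ¬ GoodIn B w c₀ (a - u) then (1 : ℝ) else 0 := fun u => by split_ifs <;> rfl
  simp only [h0]
  rw [Finset.sum_boole]
  have h := count_res hB a (Finset.Ico (c₀ * B : ℤ) (c₀ * B + B) ∪ (Finset.Ico (B - w : ℤ) B ∪
    (Finset.Ico (2 * B - w : ℤ) (2 * B) ∪ Finset.Ico (3 * B - w : ℤ) (3 * B))))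
    (fun u => ¬ GoodIn B w c₀ (a - u)) (by
    intro u hu
    have h1 := Int.emod_nonneg (a - u) (b := 3 * B) (by omega)
    have h2 := Int.emod_lt_of_pos (a - u) (b := 3 * B) (by omega)
    by_contra hcon
    simp only [Finset.mem_union, Finset.mem_Ico, not_or, not_and, not_lt] at hcon
    obtain ⟨c1, c2, c3, c4⟩ := hcon
    refine hu ⟨fun j hj1 hj2 => ?_, fun hc => ?_⟩
    · have h3 : j % (3 * B : ℤ) = (a - u) % (3 * B : ℤ) + (j - (a - u)) := by
        have e1 : j = (a - u) % (3 * B : ℤ) + (j - (a - u)) + (3 * B) * ((a - u) / (3 * B)) := by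
          have := Int.emod_add_mul_ediv (a - u) (3 * B)
          omega
        conv_lhs => rw [e1]
        rw [Int.add_mul_emod_self_left]
        exact Int.emod_eq_of_lt (by omega) (by omega)
      unfold cls
      rw [h3]
      split_ifs <;> first | rfl | omega
    · unfold cls at hc
      split_ifs at hc <;> subst hc <;> push_cast at c1 <;> omega)
  have h5 := (Finset.card_union_le (Finset.Ico (c₀ * B : ℤ) (c₀ * B + B))
    (Finset.Ico (B - w : ℤ) B ∪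
    (Finset.Ico (2 * B - w : ℤ) (2 * B) ∪ Finset.Ico (3 * B - w : ℤ) (3 * B))))
  have h6 := Finset.card_union_le (Finset.Ico (B - w : ℤ) B)
    (Finset.Ico (2 * B - w : ℤ) (2 * B) ∪ Finset.Ico (3 * B - w : ℤ) (3 * B))
  have h7 := Finset.card_union_le (Finset.Ico (2 * B - w : ℤ) (2 * B))
    (Finset.Ico (3 * B - w : ℤ) (3 * B))
  simp only [Int.card_Ico, add_sub_cancel_left, sub_sub_cancel, Int.toNat_natCast] at h5 h6 h7
  have h8 : ((Finset.Icc 1 (3 * B)).filter (fun u : ℕ => ¬ GoodIn B w c₀ (a - u))).card ≤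
      B + 3 * w := by omega
  exact_mod_cast h8

end Pool.Agent.H714Z.Sym
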