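import Pool.Agent.H714Z.Sym.Signs
import Pool.Agent.H714Z.Sym.Norm

set_option autoImplicit false

/-!
# A complemented symmetric system is essentially carried by few large coordinates
-/

namespace Pool.Agent.H714Z.Sym

open Finset

variable {p d B N k : ℕ}

/-- The pairing of vector-valued sequences. -/
def dot {N : ℕ} (f F : Fin N → ℝ × ℝ) : ℝ := ∑ ω, pr (f ω) (F ω)

/-- A complemented symmetric system. -/
structure Sys {N k : ℕ} (ν : Seminorm ℝ (Fin N → ℝ × ℝ)) (C : ℝ)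
    (v f : Fin k → Fin N → ℝ × ℝ) : Prop where
  one : ∀ i, dot (f i) (v i) = 1
  proj : ∀ F, ν (∑ i, dot (f i) F • v i) ≤ C * ν F
  sym : ∀ (σ : Equiv.Perm (Fin k)) (ε : Fin k → ℝ), (∀ i, ε i = 1 ∨ ε i = -1) →
    ∀ a : Fin k → ℝ, ν (∑ i, (ε i * a i) • v (σ i)) ≤ 2 * ν (∑ i, a i • v i)

/-- The sign of a real number. -/
noncomputable def sgn (t : ℝ) : ℝ := if 0 ≤ t then 1 else -1

theorem sgn_or (t : ℝ) : sgn t = 1 ∨ sgn t = -1 := by unfold sgn; split_ifs <;> simp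
theorem abs_sgn (t : ℝ) : |sgn t| = 1 := by unfold sgn; split_ifs <;> simp
theorem sgn_mul (t : ℝ) : sgn t * t = |t| := by
  unfold sgn; split_ifs with h
  · rw [abs_of_nonneg h, one_mul]
  · rw [abs_of_neg (not_le.1 h), neg_one_mul]

variable {ν : Seminorm ℝ (Fin N → ℝ × ℝ)} {C : ℝ} {v f : Fin k → Fin N → ℝ × ℝ}

theorem Sys.sign_le (h : Sys ν C v f) (ε : Fin k → Bool) (a : Fin k → ℝ) :
    ν (∑ i, (sg (ε i) * a i) • v i) ≤ 2 * ν (∑ i, a i • v i) :=
  h.sym 1 (fun i => sg (ε i)) (fun _ => sg_or _) a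

theorem Sys.coord_le (h : Sys ν C v f) (a : Fin k → ℝ) (i : Fin k) :
    |a i| * ν (v i) ≤ 2 * ν (∑ j, a j • v j) := by
  have h1 := h.sym 1 (fun j => if j = i then 1 else -1) (fun j => by split_ifs <;> simp) a
  have h2 : (∑ j, ((if j = i then (1 : ℝ) else -1) * a j) • v ((1 : Equiv.Perm (Fin k)) j)) +
      ∑ j, a j • v j = (2 * a i) • v i := by
    rw [← Finset.sum_add_distrib, Finset.sum_eq_single i]
    · simp [two_mul, add_smul]
    · intro j _ hj
      simp [hj]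
    · simp
  have h3 := map_add_le_add ν
    (∑ j, ((if j = i then (1 : ℝ) else -1) * a j) • v ((1 : Equiv.Perm (Fin k)) j))
    (∑ j, a j • v j)
  rw [h2, map_smul_eq_mul, Real.norm_eq_abs, abs_mul, abs_two] at h3
  have h4 := apply_nonneg ν (∑ j, a j • v j)
  linarith

theorem Sys.sum_abs_le (h : Sys ν C v f) (hk : 0 < k) (a : Fin k → ℝ) :
    (∑ i, |a i|) * ν (∑ i, v i) ≤ 2 * k * ν (∑ j, a j • v j) := by
  obtain ⟨n, rfl⟩ : ∃ n, k = n + 1 := ⟨k - 1, by omega⟩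
  have h1 : ∀ s : Fin (n + 1), ν (∑ i, |a i| • v (i + s)) ≤ 2 * ν (∑ j, a j • v j) := by
    intro s
    have := h.sym (Equiv.addRight s) (fun i => sgn (a i)) (fun _ => sgn_or _) a
    simpa only [sgn_mul, Equiv.coe_addRight] using this
  have h2 : ∑ s : Fin (n + 1), ∑ i, |a i| • v (i + s) = (∑ i, |a i|) • ∑ i, v i := by
    rw [Finset.sum_comm, Finset.sum_smul]
    refine Finset.sum_congr rfl fun i _ => ?_
    rw [← Finset.smul_sum]
    congr 1
    exact Equiv.sum_comp (Equiv.addLeft i) v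
  have h3 := (Finset.le_sum_of_subadditive ν (map_zero ν).le (map_add_le_add ν) Finset.univ
    (fun s : Fin (n + 1) => ∑ i, |a i| • v (i + s))).trans (Finset.sum_le_sum fun s _ => h1 s)
  rw [h2, map_smul_eq_mul, Real.norm_of_nonneg (Finset.sum_nonneg fun i _ => abs_nonneg _)] at h3
  simp only [Finset.sum_const, Finset.card_univ, Fintype.card_fin, nsmul_eq_mul] at h3
  linarith

theorem Sys.pos (hp : 1 ≤ p) (h : Sys (nu hp d B N) C v f) (i : Fin k) :
    0 < nu hp d B N (v i) := by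
  refine lt_of_le_of_ne (apply_nonneg _ _) fun h0 => ?_
  have h1 := h.one i
  rw [eq_zero_of_nu hp h0.symm] at h1
  simp [dot, pr] at h1

/-- The absolute pairing. -/
noncomputable def tau (f z : ℝ × ℝ) : ℝ := |f.1 * z.1| + |f.2 * z.2|

theorem tau_nonneg (f z : ℝ × ℝ) : 0 ≤ tau f z := add_nonneg (abs_nonneg _) (abs_nonneg _)

theorem abs_pr_le_tau (f z : ℝ × ℝ) : |pr f z| ≤ tau f z := abs_add_le _ _

theorem Sys.tau_le (hp : 1 ≤ p) (h : Sys (nu hp d B N) C v f) (hC : 0 ≤ C) (i : Fin k) :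
    ∑ ω, tau (f i ω) (v i ω) ≤ 10 * C * 2 ^ d := by
  set F : Fin N → ℝ × ℝ := fun ω => (sgn ((f i ω).1 * (v i ω).1) * (v i ω).1,
    sgn ((f i ω).2 * (v i ω).2) * (v i ω).2) with hF
  have h1 : dot (f i) F = ∑ ω, tau (f i ω) (v i ω) := by
    refine Finset.sum_congr rfl fun ω _ => ?_
    simp only [pr, tau, hF, ← sgn_mul]
    ring
  have h2 : ∀ ω, ‖F ω‖ = ‖v i ω‖ := by
    intro ω
    simp only [hF, norm_eq_max, abs_mul, abs_sgn, one_mul]
  have h3 : nu hp d B N F ≤ 5 * 2 ^ d * nu hp d B N (v i) := by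
    refine nu_upper hp F (apply_nonneg _ _) ?_
    simp only [h2]
    exact nu_lower hp _
  have h4 := h.coord_le (fun j => dot (f j) F) i
  have h5 := h.proj F
  have h6 := h.pos hp i
  have h7 := le_abs_self (dot (f i) F)
  rw [← h1]
  refine le_of_mul_le_mul_right ?_ h6
  calc dot (f i) F * nu hp d B N (v i) ≤ |dot (f i) F| * nu hp d B N (v i) := by gcongr
    _ ≤ 2 * (C * nu hp d B N F) := by linarith
    _ ≤ 2 * (C * (5 * 2 ^ d * nu hp d B N (v i))) := by gcongr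
    _ = _ := by ring

theorem Sys.rest {Q : ℕ} (hQ : 0 < Q) (hp : 1 ≤ 2 * Q ^ 2) (h : Sys (nu hp d B N) C v f)
    (hC : 0 ≤ C) (hk : 0 < k) (hQC : 480 * C * 2 ^ d ≤ Q) (π : ℝ × ℝ →ₗ[ℝ] ℝ) (ι : ℝ → ℝ × ℝ)
    (hι : ∀ z t, pr z (ι t) = π z * t) (hι' : ∀ t, ‖ι t‖ = |t|) (hπ : ∀ z, |π z| ≤ ‖z‖)
    (I : Fin N → Fin k → Prop) [∀ ω i, Decidable (I ω i)]
    (hI : ∀ ω i, I ω i → π (v i ω) ^ 2 ≤ (∑ j, π (v j ω) ^ 2) / ((Q ^ 2 : ℕ) : ℝ) ^ 2) :
    ∑ ω, ∑ i, (if I ω i then π (f i ω) * π (v i ω) else 0) ≤ k / 4 := by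
  set lam := nu hp d B N (∑ i, v i) with hlam
  have hQ' : (0 : ℝ) < Q := by exact_mod_cast hQ
  have hl : 0 < lam := by
    have e1 := h.coord_le (fun _ => 1) ⟨0, hk⟩
    have e2 := h.pos hp ⟨0, hk⟩
    simp only [abs_one, one_mul, one_smul] at e1
    linarith
  set t : Fin N → Fin k → ℝ := fun ω i => if I ω i then π (v i ω) ^ 2 else 0 with ht
  have ht0 : ∀ ω i, 0 ≤ t ω i := fun ω i => by
    simp only [ht]; split_ifs <;> positivity
  set g : Fin N → ℝ := fun ω => Real.sqrt (∑ i, t ω i) with hg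
  have hg0 : ∀ ω, 0 ≤ g ω := fun ω => Real.sqrt_nonneg _
  have h1 : ∀ ω, ∑ i, (if I ω i then π (f i ω) * π (v i ω) else 0) ≤
      Real.sqrt (∑ i, π (f i ω) ^ 2) * g ω := by
    intro ω
    have e1 := Real.sum_mul_le_sqrt_mul_sqrt Finset.univ (fun i => π (f i ω))
      (fun i => if I ω i then π (v i ω) else 0)
    refine le_trans (le_of_eq ?_) (e1.trans (le_of_eq ?_))
    · exact Finset.sum_congr rfl fun i _ => by split_ifs <;> simp
    · simp only [hg, ht]
      congr 2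
      exact Finset.sum_congr rfl fun i _ => by split_ifs <;> simp
  have h2 : ∑ ω, g ω ^ (2 * Q ^ 2) ≤ (6 * lam / Q) ^ (2 * Q ^ 2) := by
    have e1 : ∀ ω, 2 ^ k * g ω ^ (2 * Q ^ 2) ≤ (6 / ((Q ^ 2 : ℕ) : ℝ)) ^ (Q ^ 2) *
        ∑ ε, ss (fun i => π (v i ω)) ε ^ (2 * Q ^ 2) := by
      intro ω
      have e2 := rest_bound (fun i => π (v i ω)) (t ω) (Q ^ 2) (by positivity) (ht0 ω)
        (fun i => by simp only [ht]; split_ifs <;> first | rfl | positivity)
        (fun i => by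
          simp only [ht]
          split_ifs with hi
          · exact hI ω i hi
          · positivity)
      rwa [pow_mul, hg, Real.sq_sqrt (Finset.sum_nonneg fun i _ => ht0 ω i)]
    have e3 : ∀ ε : Fin k → Bool, ∑ ω, ss (fun i => π (v i ω)) ε ^ (2 * Q ^ 2) ≤
        (2 * lam) ^ (2 * Q ^ 2) := by
      intro ε
      have e4 := h.sign_le ε (fun _ => 1)
      simp only [mul_one, one_smul] at e4
      have e5 := nu_lower (d := d) (B := B) hp (∑ i, sg (ε i) • v i)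
      refine le_trans (Finset.sum_le_sum fun ω _ => ?_)
        (e5.trans (pow_le_pow_left₀ (apply_nonneg _ _) e4 _))
      rw [← Even.pow_abs (even_two_mul _)]
      refine pow_le_pow_left₀ (abs_nonneg _) (le_trans (le_of_eq ?_) (hπ _)) _
      simp [ss, Finset.sum_apply, map_sum]
    have e6 : (6 / ((Q ^ 2 : ℕ) : ℝ)) ^ (Q ^ 2) ≤ (3 / (Q : ℝ)) ^ (2 * Q ^ 2) := by
      rw [pow_mul]
      refine pow_le_pow_left₀ (by positivity) ?_ _
      rw [div_pow]
      push_cast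
      gcongr
      norm_num
    have e7 : 2 ^ k * ∑ ω, g ω ^ (2 * Q ^ 2) ≤ 2 ^ k * (6 * lam / Q) ^ (2 * Q ^ 2) := by
      rw [Finset.mul_sum]
      refine (Finset.sum_le_sum fun ω _ => e1 ω).trans ?_
      rw [← Finset.mul_sum, Finset.sum_comm]
      calc (6 / ((Q ^ 2 : ℕ) : ℝ)) ^ (Q ^ 2) *
            ∑ ε, ∑ ω, ss (fun i => π (v i ω)) ε ^ (2 * Q ^ 2)
          ≤ (3 / (Q : ℝ)) ^ (2 * Q ^ 2) * ∑ _ε : Fin k → Bool, (2 * lam) ^ (2 * Q ^ 2) := by
            refine mul_le_mul e6 (Finset.sum_le_sum fun ε _ => e3 ε) ?_ (by positivity)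
            exact Finset.sum_nonneg fun ε _ => Finset.sum_nonneg fun ω _ =>
              (even_two_mul _).pow_nonneg _
        _ = _ := by
            rw [sum_const_signs, show 6 * lam / Q = 3 / (Q : ℝ) * (2 * lam) by ring,
              mul_pow (3 / (Q : ℝ)), mul_left_comm]
    exact le_of_mul_le_mul_left e7 (by positivity)
  have h3 : ∀ ε : Fin k → Bool, ∑ ω, |ss (fun i => π (f i ω)) ε| * g ω ≤ k / 8 := by
    intro ε
    set F : Fin N → ℝ × ℝ := fun ω => ι (sgn (ss (fun i => π (f i ω)) ε) * g ω) with hF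
    have e1 : nu hp d B N F ≤ 5 * 2 ^ d * (6 * lam / Q) := by
      refine nu_upper hp F (by positivity) (le_trans (le_of_eq ?_) h2)
      refine Finset.sum_congr rfl fun ω _ => ?_
      simp only [hF, hι', abs_mul, abs_sgn, one_mul, abs_of_nonneg (hg0 ω)]
    have e2 : ∑ ω, |ss (fun i => π (f i ω)) ε| * g ω = ∑ i, sg (ε i) * dot (f i) F := by
      simp only [dot, Finset.mul_sum]
      rw [Finset.sum_comm]
      refine Finset.sum_congr rfl fun ω _ => ?_
      rw [← sgn_mul, mul_comm (sgn _), mul_assoc]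
      simp only [hF, hι]
      generalize sgn (ss (fun i => π (f i ω)) ε) * g ω = y
      rw [ss, Finset.sum_mul]
      exact Finset.sum_congr rfl fun i _ => mul_assoc _ _ _
    have e3 : ∑ i, sg (ε i) * dot (f i) F ≤ ∑ i, |dot (f i) F| := by
      refine Finset.sum_le_sum fun i _ => (le_abs_self _).trans (le_of_eq ?_)
      rw [abs_mul, abs_sg, one_mul]
    have e4 := h.sum_abs_le hk (fun i => dot (f i) F)
    have e5 := h.proj F
    have e6 : (∑ i, |dot (f i) F|) * lam ≤ k / 8 * lam := by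
      calc (∑ i, |dot (f i) F|) * lam ≤ 2 * k * (C * nu hp d B N F) :=
            e4.trans (mul_le_mul_of_nonneg_left e5 (by positivity))
        _ ≤ 2 * k * (C * (5 * 2 ^ d * (6 * lam / Q))) := by gcongr
        _ = k / 8 * lam * (480 * C * 2 ^ d / Q) := by ring
        _ ≤ k / 8 * lam * 1 := by
            gcongr
            rwa [div_le_one hQ']
        _ = _ := mul_one _
    rw [e2]
    exact e3.trans (le_of_mul_le_mul_right e6 hl)
  have h4 : 2 ^ k * ∑ ω, Real.sqrt (∑ i, π (f i ω) ^ 2) * g ω ≤ 2 ^ k * ((k : ℝ) / 4) := by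
    calc 2 ^ k * ∑ ω, Real.sqrt (∑ i, π (f i ω) ^ 2) * g ω
        ≤ ∑ ω, (2 * ∑ ε, |ss (fun i => π (f i ω)) ε|) * g ω := by
          rw [Finset.mul_sum]
          refine Finset.sum_le_sum fun ω _ => ?_
          rw [← mul_assoc]
          exact mul_le_mul_of_nonneg_right (khin _) (hg0 ω)
      _ = 2 * ∑ ε, ∑ ω, |ss (fun i => π (f i ω)) ε| * g ω := by
          rw [Finset.sum_comm, Finset.mul_sum]
          refine Finset.sum_congr rfl fun ω _ => ?_
          rw [mul_assoc, Finset.sum_mul]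
      _ ≤ 2 * ∑ _ε : Fin k → Bool, (k : ℝ) / 8 := by gcongr with ε; exact h3 ε
      _ = _ := by rw [sum_const_signs]; ring
  exact (Finset.sum_le_sum fun ω _ => h1 ω).trans (le_of_mul_le_mul_left h4 (by positivity))

end Pool.Agent.H714Z.Sym
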