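import Mathlib

set_option autoImplicit false

/-!
# Sums over all choices of signs
-/

namespace Pool.Agent.H714Z.Sym

open Finset

/-- The sign attached to a Boolean. -/
def sg (b : Bool) : ℝ := if b then 1 else -1

@[simp] theorem sg_true : sg true = 1 := rfl
@[simp] theorem sg_false : sg false = -1 := rfl
theorem sg_or (b : Bool) : sg b = 1 ∨ sg b = -1 := by cases b <;> simp
theorem sg_mul_self (b : Bool) : sg b * sg b = 1 := by cases b <;> simp
theorem abs_sg (b : Bool) : |sg b| = 1 := by cases b <;> simp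
theorem sg_not (b : Bool) : sg (!b) = - sg b := by cases b <;> simp

theorem sum_cons {k : ℕ} (f : (Fin (k + 1) → Bool) → ℝ) :
    ∑ ε, f ε = ∑ ε : Fin k → Bool, (f (Fin.cons true ε) + f (Fin.cons false ε)) := by
  rw [← (Fin.consEquiv (fun _ : Fin (k + 1) => Bool)).sum_comp, Fintype.sum_prod_type,
    Finset.sum_comm]
  refine Finset.sum_congr rfl fun ε _ => ?_
  rw [Fintype.sum_bool]
  rfl

/-- The signed sum. -/
def ss {k : ℕ} (a : Fin k → ℝ) (ε : Fin k → Bool) : ℝ := ∑ i, sg (ε i) * a i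

theorem ss_cons {k : ℕ} (a : Fin (k + 1) → ℝ) (b : Bool) (ε : Fin k → Bool) :
    ss a (Fin.cons b ε) = ss (fun i => a i.succ) ε + sg b * a 0 := by
  simp [ss, Fin.sum_univ_succ, add_comm]

theorem card_signs (k : ℕ) : (Fintype.card (Fin k → Bool) : ℝ) = 2 ^ k := by simp

theorem sum_const_signs (k : ℕ) (c : ℝ) : ∑ _ε : Fin k → Bool, c = 2 ^ k * c := by
  simp

theorem orth {k : ℕ} (i l : Fin k) :
    ∑ ε : Fin k → Bool, sg (ε i) * sg (ε l) = if i = l then 2 ^ k else 0 := by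
  split_ifs with h
  · subst h
    simp [sg_mul_self]
  · let e : (Fin k → Bool) ≃ (Fin k → Bool) :=
      Function.Involutive.toPerm (fun ε => Function.update ε i (!(ε i))) (fun ε => by simp)
    have h1 := e.sum_comp (fun ε => sg (ε i) * sg (ε l))
    have h2 : ∀ ε, sg (e ε i) * sg (e ε l) = - (sg (ε i) * sg (ε l)) := by
      intro ε
      have e1 : e ε i = !(ε i) := by simp [e]
      have e2 : e ε l = ε l := by simp [e, Function.update_of_ne (Ne.symm h)]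
      rw [e1, e2, sg_not]; ring
    simp only [h2, Finset.sum_neg_distrib] at h1
    linarith

theorem moments : ∀ (k : ℕ) (a : Fin k → ℝ),
    ∑ ε, ss a ε ^ 2 = 2 ^ k * ∑ i, a i ^ 2 ∧ ∑ ε, ss a ε ^ 4 ≤ 2 ^ k * (3 * (∑ i, a i ^ 2) ^ 2)
  | 0, a => by simp [ss]
  | k + 1, a => by
    obtain ⟨h1, h2⟩ := moments k (fun i => a i.succ)
    rw [sum_cons, sum_cons, Fin.sum_univ_succ]
    simp only [ss_cons, sg_true, sg_false]
    set X := fun ε => ss (fun i => a i.succ) ε with hX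
    set σ := ∑ i : Fin k, a i.succ ^ 2 with hσ
    have e1 : ∀ ε, (X ε + 1 * a 0) ^ 2 + (X ε + -1 * a 0) ^ 2 = 2 * X ε ^ 2 + 2 * a 0 ^ 2 := by
      intro ε; ring
    have e2 : ∀ ε, (X ε + 1 * a 0) ^ 4 + (X ε + -1 * a 0) ^ 4 =
        2 * X ε ^ 4 + (12 * a 0 ^ 2) * X ε ^ 2 + 2 * a 0 ^ 4 := by
      intro ε; ring
    constructor
    · change ∑ ε, ((X ε + 1 * a 0) ^ 2 + (X ε + -1 * a 0) ^ 2) = _
      simp only [e1, Finset.sum_add_distrib, ← Finset.mul_sum, sum_const_signs]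
      rw [h1]; ring
    · change ∑ ε, ((X ε + 1 * a 0) ^ 4 + (X ε + -1 * a 0) ^ 4) ≤ _
      simp only [e2, Finset.sum_add_distrib, ← Finset.mul_sum, sum_const_signs]
      rw [h1]
      have h3 : (0 : ℝ) < 2 ^ k := by positivity
      have h4 : 0 ≤ a 0 ^ 4 := by positivity
      have h5 : (2 : ℝ) ^ (k + 1) * (3 * (a 0 ^ 2 + σ) ^ 2) =
          2 * (2 ^ k * (3 * σ ^ 2)) + 12 * a 0 ^ 2 * (2 ^ k * σ) + 6 * (2 ^ k * a 0 ^ 4) := by
        ring
      rw [h5]
      nlinarith [mul_nonneg h3.le h4]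

/-- Khintchine's inequality for the first moment. -/
theorem khin {k : ℕ} (a : Fin k → ℝ) :
    2 ^ k * Real.sqrt (∑ i, a i ^ 2) ≤ 2 * ∑ ε, |ss a ε| := by
  obtain ⟨h1, h2⟩ := moments k a
  set σ := Real.sqrt (∑ i, a i ^ 2) with hσ
  have h0 : 0 ≤ ∑ i, a i ^ 2 := Finset.sum_nonneg fun i _ => sq_nonneg _
  have hs : ∑ i, a i ^ 2 = σ ^ 2 := (Real.sq_sqrt h0).symm
  have hσ0 : 0 ≤ σ := Real.sqrt_nonneg _
  rw [hs] at h1 h2
  rcases hσ0.eq_or_lt with h | h
  · rw [← h, mul_zero]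
    positivity
  have key : ∀ s : ℝ, σ ^ 2 * s ^ 2 - s ^ 4 / 6 ≤ σ ^ 3 * |s| := by
    intro s
    have hu := abs_nonneg s
    rw [← sq_abs s, show s ^ 4 = |s| ^ 4 by rw [← abs_pow, abs_of_nonneg (by positivity)]]
    generalize |s| = u at hu
    have h3 : 0 ≤ σ ^ 3 - σ ^ 2 * u + u ^ 3 / 6 := by
      have h4 : 0 ≤ (u - 3 / 2 * σ) ^ 2 * (u + 3 * σ) := by positivity
      have h5 : 0 ≤ σ ^ 2 * u := by positivity
      have h6 : 0 ≤ σ ^ 3 := by positivity
      by_cases h7 : u ≤ σ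
      · have : σ ^ 2 * u ≤ σ ^ 2 * σ := by gcongr
        have : 0 ≤ u ^ 3 := by positivity
        nlinarith
      · have h8 : σ ^ 2 * σ ≤ σ ^ 2 * u := by
          have := le_of_lt (not_le.1 h7)
          gcongr
        nlinarith
    nlinarith [mul_nonneg hu h3]
  have h3 : ∑ ε, (σ ^ 2 * ss a ε ^ 2 - ss a ε ^ 4 / 6) ≤ ∑ ε, σ ^ 3 * |ss a ε| :=
    Finset.sum_le_sum fun ε _ => key _
  rw [Finset.sum_sub_distrib, ← Finset.mul_sum, ← Finset.sum_div, ← Finset.mul_sum, h1] at h3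
  have h4 : σ ^ 3 * (2 ^ k * σ) ≤ σ ^ 3 * (2 * ∑ ε, |ss a ε|) := by nlinarith
  exact le_of_mul_le_mul_left h4 (by positivity)

theorem two_pow_aux {X a : ℝ} (hX : 0 ≤ X) (ha : 0 ≤ a) : ∀ n : ℕ,
    2 * X ^ n ≤ (X + a) ^ n + (X - a) ^ n ∧ 0 ≤ (X + a) ^ n - (X - a) ^ n
  | 0 => by norm_num
  | n + 1 => by
    obtain ⟨h1, h2⟩ := two_pow_aux hX ha n
    have h3 : 0 ≤ X ^ n := by positivity
    constructor
    · have : (X + a) ^ (n + 1) + (X - a) ^ (n + 1) =
          X * ((X + a) ^ n + (X - a) ^ n) + a * ((X + a) ^ n - (X - a) ^ n) := by ring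
      rw [this, pow_succ]
      nlinarith [mul_nonneg ha h2, mul_le_mul_of_nonneg_left h1 hX]
    · have : (X + a) ^ (n + 1) - (X - a) ^ (n + 1) =
          X * ((X + a) ^ n - (X - a) ^ n) + a * ((X + a) ^ n + (X - a) ^ n) := by ring
      rw [this]
      have : 0 ≤ (X + a) ^ n + (X - a) ^ n := by linarith
      positivity

theorem two_pow_aux2 {X a : ℝ} (hX : 0 ≤ X) (ha : 0 ≤ a) : ∀ n : ℕ,
    2 * (n + 1) * a * X ^ n ≤ (X + a) ^ (n + 1) - (X - a) ^ (n + 1)
  | 0 => by simp only [Nat.cast_zero, zero_add, pow_zero, pow_one]; linarith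
  | n + 1 => by
    have h1 := two_pow_aux2 hX ha n
    have h2 := (two_pow_aux hX ha (n + 1)).1
    have : (X + a) ^ (n + 1 + 1) - (X - a) ^ (n + 1 + 1) =
        X * ((X + a) ^ (n + 1) - (X - a) ^ (n + 1)) +
          a * ((X + a) ^ (n + 1) + (X - a) ^ (n + 1)) := by ring
    rw [this]
    have h3 := mul_le_mul_of_nonneg_left h1 hX
    have h4 := mul_le_mul_of_nonneg_left h2 ha
    push_cast
    calc 2 * (n + 1 + 1 : ℝ) * a * X ^ (n + 1)
        = X * (2 * (n + 1) * a * X ^ n) + a * (2 * X ^ (n + 1)) := by ring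
      _ ≤ _ := add_le_add h3 h4

theorem two_pow_aux3 {X a : ℝ} (hX : 0 ≤ X) (ha : 0 ≤ a) : ∀ n : ℕ,
    2 * X ^ (n + 2) + (n + 2) * (n + 1) * a ^ 2 * X ^ n ≤ (X + a) ^ (n + 2) + (X - a) ^ (n + 2)
  | 0 => by simp only [Nat.cast_zero, zero_add, pow_zero]; nlinarith
  | n + 1 => by
    have h1 := two_pow_aux3 hX ha n
    have h2 := two_pow_aux2 hX ha (n + 1)
    have : (X + a) ^ (n + 1 + 2) + (X - a) ^ (n + 1 + 2) =
        X * ((X + a) ^ (n + 2) + (X - a) ^ (n + 2)) +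
          a * ((X + a) ^ (n + 1 + 1) - (X - a) ^ (n + 1 + 1)) := by ring
    rw [this]
    have h3 := mul_le_mul_of_nonneg_left h1 hX
    have h4 := mul_le_mul_of_nonneg_left h2 ha
    push_cast at h4 ⊢
    calc 2 * X ^ (n + 1 + 2) + (n + 1 + 2 : ℝ) * (n + 1 + 1) * a ^ 2 * X ^ (n + 1)
        = X * (2 * X ^ (n + 2) + (n + 2) * (n + 1) * a ^ 2 * X ^ n) +
          a * (2 * (n + 1 + 1) * a * X ^ (n + 1)) := by ring
      _ ≤ _ := add_le_add h3 h4

theorem two_pow_even (X a : ℝ) (q : ℕ) :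
    2 * X ^ (2 * (q + 1)) + 2 * (q + 1) * (q + 1) * a ^ 2 * X ^ (2 * q) ≤
      (X + a) ^ (2 * (q + 1)) + (X - a) ^ (2 * (q + 1)) := by
  have h := two_pow_aux3 (abs_nonneg X) (abs_nonneg a) (2 * q)
  have ev : ∀ (y : ℝ) (n : ℕ), |y| ^ (2 * n) = y ^ (2 * n) := fun y n =>
    Even.pow_abs (even_two_mul n) y
  have e0 : 2 * q + 2 = 2 * (q + 1) := by ring
  rw [e0, ev, ev, sq_abs] at h
  have e1 : (|X| + |a|) ^ (2 * (q + 1)) + (|X| - |a|) ^ (2 * (q + 1)) =
      (X + a) ^ (2 * (q + 1)) + (X - a) ^ (2 * (q + 1)) := by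
    have neg : ∀ y : ℝ, (-y) ^ (2 * (q + 1)) = y ^ (2 * (q + 1)) := fun y =>
      Even.neg_pow (even_two_mul _) y
    rcases abs_choice X with h1 | h1 <;> rcases abs_choice a with h2 | h2 <;> rw [h1, h2]
    · rw [add_comm, sub_neg_eq_add, ← sub_eq_add_neg]
    · rw [add_comm, ← neg (X + a), ← neg (X - a)]
      congr 2 <;> ring
    · rw [← neg (X + a), ← neg (X - a)]
      congr 2 <;> ring
  rw [e1] at h
  refine le_trans ?_ h
  have h3 : 0 ≤ a ^ 2 * X ^ (2 * q) := by rw [← ev]; positivity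
  have h4 : (0 : ℝ) ≤ q := Nat.cast_nonneg q
  push_cast
  nlinarith [mul_nonneg (mul_nonneg h4 (by linarith : (0 : ℝ) ≤ q + 1)) h3]

theorem high_moment (β : ℝ) : ∀ (k : ℕ) (a t : Fin k → ℝ), (∀ i, 0 ≤ t i) → (∀ i, t i ≤ a i ^ 2) →
    (∀ i, t i ≤ β) → 0 ≤ β → ∀ q : ℕ,
    2 ^ k * (q.factorial * max 0 (∑ i, t i - q * β) ^ q) ≤ ∑ ε, ss a ε ^ (2 * q)
  | _, _, _, _, _, _, _, 0 => by simp
  | 0, a, t, _, _, _, hβ, q + 1 => by
    have : max 0 (∑ i, t i - (q + 1 : ℕ) * β) = 0 := by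
      apply max_eq_left
      simp only [univ_eq_empty, sum_empty, zero_sub, Left.neg_nonpos_iff]
      positivity
    rw [this]
    simp [ss]
  | k + 1, a, t, h0, h1, h2, hβ, q + 1 => by
    have i1 := high_moment β k (fun i => a i.succ) (fun i => t i.succ) (fun i => h0 _)
      (fun i => h1 _) (fun i => h2 _) hβ (q + 1)
    have i2 := high_moment β k (fun i => a i.succ) (fun i => t i.succ) (fun i => h0 _)
      (fun i => h1 _) (fun i => h2 _) hβ q
    rw [sum_cons, Fin.sum_univ_succ]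
    simp only [ss_cons, sg_true, sg_false]
    set X := fun ε => ss (fun i => a i.succ) ε with hX
    set S := ∑ i : Fin k, t i.succ with hS
    have h3 : ∑ ε, (2 * X ε ^ (2 * (q + 1)) + (2 * (q + 1) * (q + 1) * a 0 ^ 2) * X ε ^ (2 * q)) ≤
        ∑ ε, ((X ε + 1 * a 0) ^ (2 * (q + 1)) + (X ε + -1 * a 0) ^ (2 * (q + 1))) := by
      refine Finset.sum_le_sum fun ε _ => ?_
      have := two_pow_even (X ε) (a 0) q
      rwa [one_mul, neg_one_mul, ← sub_eq_add_neg]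
    refine le_trans ?_ h3
    rw [Finset.sum_add_distrib, ← Finset.mul_sum, ← Finset.mul_sum]
    set y := max 0 (S - (q + 1 : ℕ) * β) with hy
    set y' := max 0 (t 0 + S - (q + 1 : ℕ) * β) with hy'
    set Y := max 0 (S - q * β) with hY
    have hy0 : 0 ≤ y := le_max_left _ _
    have hY0 : 0 ≤ Y := le_max_left _ _
    have hyy : y ≤ y' := max_le_max le_rfl (by linarith [h0 0])
    have hyb : y' - y ≤ t 0 := by
      have : y' ≤ y + t 0 := max_le (by linarith [h0 0])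
        (by have := le_max_right 0 (S - (q + 1 : ℕ) * β); linarith)
      linarith
    have hyY : y' ≤ Y := max_le_max le_rfl (by push_cast; linarith [h2 0])
    have h4 : y' ^ (q + 1) ≤ y ^ (q + 1) + (q + 1) * a 0 ^ 2 * Y ^ q := by
      have h5 := abs_pow_sub_pow_le y' y (q + 1)
      rw [abs_of_nonneg (sub_nonneg.2 hyy), abs_of_nonneg hy0, abs_of_nonneg (hy0.trans hyy),
        max_eq_left hyy, Nat.add_sub_cancel] at h5
      have h6 := le_abs_self (y' ^ (q + 1) - y ^ (q + 1))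
      have h7 : (y' - y) * (q + 1 : ℕ) * y' ^ q ≤ a 0 ^ 2 * (q + 1 : ℕ) * Y ^ q := by
        have := hy0.trans hyy
        have := hyb.trans (h1 0)
        gcongr
      push_cast at h5 h7
      linarith
    have h8 : (0 : ℝ) ≤ 2 * (q + 1) * (q + 1) * a 0 ^ 2 := by positivity
    have h9 := mul_le_mul_of_nonneg_left i2 h8
    have h10 : (0 : ℝ) ≤ 2 ^ (k + 1) * (q + 1).factorial := by positivity
    have h11 := mul_le_mul_of_nonneg_left h4 h10
    rw [Nat.factorial_succ] at h11 i1 ⊢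
    push_cast at h11 i1 ⊢
    calc (2 : ℝ) ^ (k + 1) * ((q + 1) * q.factorial * y' ^ (q + 1))
        = 2 ^ (k + 1) * ((q + 1) * q.factorial) * y' ^ (q + 1) := by ring
      _ ≤ _ := h11
      _ = 2 * (2 ^ k * ((q + 1) * q.factorial * y ^ (q + 1))) +
          2 * (q + 1) * (q + 1) * a 0 ^ 2 * (2 ^ k * (q.factorial * Y ^ q)) := by ring
      _ ≤ _ := add_le_add (by linarith) h9

/-- The part of the square function carried by small coefficients is dominated by a small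
multiple of the high moment. -/
theorem rest_bound {k : ℕ} (a t : Fin k → ℝ) (q : ℕ) (hq : 0 < q) (h0 : ∀ i, 0 ≤ t i)
    (h1 : ∀ i, t i ≤ a i ^ 2) (h2 : ∀ i, t i ≤ (∑ j, a j ^ 2) / (q : ℝ) ^ 2) :
    2 ^ k * (∑ i, t i) ^ q ≤ (6 / (q : ℝ)) ^ q * ∑ ε, ss a ε ^ (2 * q) := by
  set A := ∑ j, a j ^ 2 with hA
  set S := ∑ i, t i with hS
  have hA0 : 0 ≤ A := Finset.sum_nonneg fun i _ => sq_nonneg _
  have hS0 : 0 ≤ S := Finset.sum_nonneg fun i _ => h0 i
  have hq' : (0 : ℝ) < q := by exact_mod_cast hq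
  have hm0 : 0 ≤ ∑ ε, ss a ε ^ (2 * q) :=
    Finset.sum_nonneg fun ε _ => by rw [pow_mul]; positivity
  by_cases hc : 2 * q * (A / (q : ℝ) ^ 2) ≤ S
  · have h3 := high_moment (A / (q : ℝ) ^ 2) k a t h0 h1 h2 (by positivity) q
    have h4 : S / 2 ≤ max 0 (S - q * (A / (q : ℝ) ^ 2)) := le_max_of_le_right (by linarith)
    have h5 : (S / 2) ^ q ≤ max 0 (S - q * (A / (q : ℝ) ^ 2)) ^ q := by gcongr
    have h6 : (q : ℝ) ^ q ≤ q.factorial * 3 ^ q := by
      have e1 := Real.pow_div_factorial_le_exp (q : ℝ) hq'.le q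
      have e2 : Real.exp q ≤ 3 ^ q := by
        rw [← Real.exp_one_pow]
        have := Real.exp_one_lt_d9
        gcongr
        linarith
      rw [div_le_iff₀ (by positivity)] at e1
      have : Real.exp q * q.factorial ≤ 3 ^ q * q.factorial := by gcongr
      linarith
    have h7 : S ^ q ≤ (6 / (q : ℝ)) ^ q * (q.factorial * (S / 2) ^ q) := by
      have e1 : (6 / (q : ℝ)) ^ q * (q.factorial * (S / 2) ^ q) =
          S ^ q * (q.factorial * 3 ^ q) / (q : ℝ) ^ q := by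
        rw [div_pow, div_pow, show (6 : ℝ) = 3 * 2 by norm_num, mul_pow]
        field_simp
      rw [e1, le_div_iff₀ (by positivity)]
      gcongr
    calc (2 : ℝ) ^ k * S ^ q ≤ 2 ^ k * ((6 / (q : ℝ)) ^ q * (q.factorial * (S / 2) ^ q)) := by
          gcongr
      _ = (6 / (q : ℝ)) ^ q * (2 ^ k * (q.factorial * (S / 2) ^ q)) := by ring
      _ ≤ (6 / (q : ℝ)) ^ q *
          (2 ^ k * (q.factorial * max 0 (S - q * (A / (q : ℝ) ^ 2)) ^ q)) := by gcongr
      _ ≤ _ := by gcongr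
  · have h3 : S ≤ 6 / (q : ℝ) * A := by
      have e1 : 2 * q * (A / (q : ℝ) ^ 2) = 2 / (q : ℝ) * A := by field_simp
      have e2 : 2 / (q : ℝ) * A ≤ 6 / (q : ℝ) * A := by gcongr; norm_num
      linarith [not_le.1 hc]
    have h4 : 2 ^ k * A ^ q ≤ ∑ ε, ss a ε ^ (2 * q) := by
      obtain ⟨n, rfl⟩ : ∃ n, q = n + 1 := ⟨q - 1, by omega⟩
      have e1 := pow_sum_div_card_le_sum_pow (s := (univ : Finset (Fin k → Bool)))
        (f := fun ε => ss a ε ^ 2) (fun ε _ => sq_nonneg _) n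
      rw [(moments k a).1, Finset.card_univ, card_signs] at e1
      simp only [← pow_mul] at e1
      refine le_trans (le_of_eq ?_) e1
      rw [mul_pow, ← pow_mul, pow_mul]
      field_simp
      ring
    calc (2 : ℝ) ^ k * S ^ q ≤ 2 ^ k * (6 / (q : ℝ) * A) ^ q := by gcongr
      _ = (6 / (q : ℝ)) ^ q * (2 ^ k * A ^ q) := by rw [mul_pow]; ring
      _ ≤ _ := by gcongr

/-- Passing to the diagonal by averaging over signs. -/
theorem diag_le {V : Type*} [AddCommGroup V] [Module ℝ V] (ν : Seminorm ℝ V) {k : ℕ}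
    (u : Fin k → Fin k → V) (K : ℝ)
    (h : ∀ ε : Fin k → Bool, ν (∑ l, ∑ i, (sg (ε l) * sg (ε i)) • u l i) ≤ K) :
    ν (∑ l, u l l) ≤ K := by
  have h1 : ∑ ε : Fin k → Bool, ∑ l, ∑ i, (sg (ε l) * sg (ε i)) • u l i =
      (2 : ℝ) ^ k • ∑ l, u l l := by
    rw [Finset.sum_comm, Finset.smul_sum]
    refine Finset.sum_congr rfl fun l _ => ?_
    rw [Finset.sum_comm]
    simp only [← Finset.sum_smul, orth]
    rw [Finset.sum_eq_single l]
    · simp
    · intro i _ hi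
      rw [if_neg (Ne.symm hi), zero_smul]
    · simp
  have h2 : ν (∑ ε : Fin k → Bool, ∑ l, ∑ i, (sg (ε l) * sg (ε i)) • u l i) ≤ 2 ^ k * K := by
    refine (Finset.le_sum_of_subadditive ν (map_zero ν).le (map_add_le_add ν) _ _).trans ?_
    rw [← sum_const_signs]
    exact Finset.sum_le_sum fun ε _ => h ε
  rw [h1, map_smul_eq_mul, Real.norm_eq_abs, abs_of_pos (by positivity)] at h2
  exact le_of_mul_le_mul_left h2 (by positivity)

end Pool.Agent.H714Z.Sym
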