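import Pool.Agent.H714Z.Sym.Main

set_option autoImplicit false

/-!
# The normed spaces of the family
-/

namespace Pool.Agent.H714Z.Sym

open Finset

/-- The underlying type of the space. -/
def Sp {p : ℕ} (_hp : 1 ≤ p) (_d _B N : ℕ) : Type := Fin N → ℝ × ℝ

variable {p : ℕ} (hp : 1 ≤ p) (d B N : ℕ)

instance : AddCommGroup (Sp hp d B N) := inferInstanceAs (AddCommGroup (Fin N → ℝ × ℝ))
noncomputable instance : Module ℝ (Sp hp d B N) := inferInstanceAs (Module ℝ (Fin N → ℝ × ℝ))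

/-- The identity map. -/
noncomputable def toFn : Sp hp d B N ≃ₗ[ℝ] (Fin N → ℝ × ℝ) := LinearEquiv.refl ℝ _

noncomputable instance : NormedAddCommGroup (Sp hp d B N) :=
  AddGroupNorm.toNormedAddCommGroup
    { toFun := fun F => nu hp d B N (toFn hp d B N F)
      map_zero' := by simp
      add_le' := fun F G => by rw [map_add]; exact map_add_le_add _ _ _
      neg' := fun F => by rw [map_neg, map_neg_eq_map]
      eq_zero_of_map_eq_zero' := fun F h =>
        (toFn hp d B N).map_eq_zero_iff.1 (eq_zero_of_nu hp h) }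

theorem norm_def (F : Sp hp d B N) : ‖F‖ = nu hp d B N (toFn hp d B N F) := rfl

noncomputable instance : NormedSpace ℝ (Sp hp d B N) where
  norm_smul_le c F := by rw [norm_def, norm_def, map_smul, map_smul_eq_mul]

theorem finrank_Sp : Module.finrank ℝ (Sp hp d B N) = N * 2 := by
  rw [(toFn hp d B N).finrank_eq, Module.finrank_pi_fintype]
  simp

theorem exists_dot (φ : (Fin N → ℝ × ℝ) →ₗ[ℝ] ℝ) : ∃ g, ∀ F, dot g F = φ F := by
  refine ⟨fun ω => (φ (Pi.single ω (1, 0)), φ (Pi.single ω (0, 1))), fun F => ?_⟩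
  conv_rhs => rw [← Finset.univ_sum_single F, map_sum]
  refine Finset.sum_congr rfl fun ω _ => ?_
  have : (Pi.single ω (F ω) : Fin N → ℝ × ℝ) =
      (F ω).1 • (Pi.single ω ((1 : ℝ), (0 : ℝ)) : Fin N → ℝ × ℝ) +
        (F ω).2 • (Pi.single ω ((0 : ℝ), (1 : ℝ)) : Fin N → ℝ × ℝ) := by
    rw [← Pi.single_smul, ← Pi.single_smul, ← Pi.single_add]
    simp
  rw [this, map_add, map_smul, map_smul]
  simp only [pr, smul_eq_mul]
  ring

theorem sys_of {k : ℕ} {C : ℝ} (e : Fin k → Sp hp d B N) (he : LinearIndependent ℝ e)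
    (P : Sp hp d B N →L[ℝ] Sp hp d B N) (h1 : ∀ x, P x ∈ Submodule.span ℝ (Set.range e))
    (h2 : ∀ y ∈ Submodule.span ℝ (Set.range e), P y = y) (h3 : ‖P‖ ≤ C)
    (h4 : ∀ σ : Equiv.Perm (Fin k), ∀ ε : Fin k → ℝ, (∀ i, ε i = 1 ∨ ε i = -1) →
      ∀ a : Fin k → ℝ, ‖∑ i, (ε i * a i) • e (σ i)‖ ≤ 2 * ‖∑ i, a i • e i‖) :
    ∃ f, Sys (nu hp d B N) C (fun i => toFn hp d B N (e i)) f := by
  set b := Module.Basis.span he with hb
  set P' : Sp hp d B N →ₗ[ℝ] Submodule.span ℝ (Set.range e) :=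
    LinearMap.codRestrict _ (P : Sp hp d B N →ₗ[ℝ] Sp hp d B N) h1 with hP'
  choose f hf using fun i => exists_dot N
    ((b.coord i).comp (P'.comp (toFn hp d B N).symm.toLinearMap))
  have key : ∀ a : Fin k → ℝ, ∀ w : Fin k → Sp hp d B N,
      nu hp d B N (∑ i, a i • toFn hp d B N (w i)) = ‖∑ i, a i • w i‖ := by
    intro a w
    rw [norm_def, map_sum (toFn hp d B N)]
    simp only [map_smul]
  refine ⟨f, fun i => ?_, fun F => ?_, fun σ ε hε a => ?_⟩
  · rw [hf]
    have : P' (e i) = b i := by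
      apply Subtype.ext
      rw [hb, Module.Basis.span_apply]
      exact h2 _ (Submodule.subset_span ⟨i, rfl⟩)
    simp [this]
  · rw [key]
    have e1 : ∑ i, dot (f i) F • e i = P ((toFn hp d B N).symm F) := by
      have e2 := congrArg Subtype.val (b.sum_repr (P' ((toFn hp d B N).symm F)))
      rw [Submodule.coe_sum] at e2
      refine Eq.trans (Finset.sum_congr rfl fun i _ => ?_) e2
      rw [hf, Submodule.coe_smul, hb, Module.Basis.span_apply]
      rfl
    rw [e1]
    refine (P.le_of_opNorm_le h3 _).trans (le_of_eq ?_)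
    rw [norm_def, LinearEquiv.apply_symm_apply]
  · rw [key (fun i => ε i * a i) (fun i => e (σ i)), key]
    exact h4 σ ε hε a

end Pool.Agent.H714Z.Sym
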